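import Pool.Agent.Y206.Final

set_option autoImplicit false

/-!
# Nonexistence of curves is an open condition

If no curve of degree `d` has multiplicity at least `m i` at the `i`-th of some points, this is
witnessed by a polynomial with integer coefficients in the coordinates of the points.
-/

namespace Pool.Agent.Y206

/-- a minor of full size -/
theorem exists_minor {K ρ C : Type*} [Field K] [Fintype C] [DecidableEq C] (A : ρ → C → K)
    (h : ∀ x : C → K, (∀ r, ∑ c, A r c * x c = 0) → x = 0) :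
    ∃ f : C → ρ, (Matrix.of fun c c' => A (f c) c').det ≠ 0 := by
  classical
  have hspan : Submodule.span K (Set.range A) = ⊤ := by
    by_contra hne
    obtain ⟨g, hg0, hg⟩ := Submodule.exists_le_ker_of_lt_top _ (lt_top_iff_ne_top.2 hne)
    apply hg0
    have hx : (fun c => g (Pi.single c 1)) = (0 : C → K) := by
      apply h
      intro r
      have h1 : A r ∈ LinearMap.ker g := hg (Submodule.subset_span ⟨r, rfl⟩)
      rw [LinearMap.mem_ker] at h1
      rw [← h1]
      conv_rhs => rw [LinearMap.pi_apply_eq_sum_univ g (A r)]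
      refine Finset.sum_congr rfl fun c _ => ?_
      rw [smul_eq_mul]
      congr 2
      funext c'
      rw [Pi.single_apply]
      simp [eq_comm]
    apply LinearMap.pi_ext'
    intro c
    apply LinearMap.ext_ring
    have := congrFun hx c
    simpa using this
  obtain ⟨κ, a, ha, h1, h2⟩ := exists_linearIndependent' K A
  rw [hspan] at h1
  obtain ⟨b, hb⟩ : ∃ b : Module.Basis κ K (C → K), ∀ i, b i = (A ∘ a) i :=
    ⟨Module.Basis.mk h2 (by rw [h1]), fun i => Module.Basis.mk_apply h2 _ i⟩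
  have : Fintype κ := FiniteDimensional.fintypeBasisIndex b
  have hcard : Fintype.card C = Fintype.card κ := by
    rw [← Module.finrank_eq_card_basis b, Module.finrank_fintype_fun_eq_card]
  obtain ⟨e⟩ : Nonempty (C ≃ κ) := ⟨Fintype.equivOfCardEq hcard⟩
  refine ⟨a ∘ e, ?_⟩
  have h3 : LinearIndependent K (fun c => A (a (e c))) := h2.comp e e.injective
  have h4 : LinearIndependent K (Matrix.of fun c c' => A ((a ∘ e) c) c').row := h3
  rw [Matrix.linearIndependent_rows_iff_isUnit, Matrix.isUnit_iff_isUnit_det] at h4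
  exact h4.ne_zero

/-- exponents of degree `d` -/
abbrev Cd (d : ℕ) : Type := ↥((Finset.univ : Finset (Fin 3)).finsuppAntidiag d)

/-- conditions -/
abbrev Rm {n : ℕ} (m : Fin n → ℕ) : Type := {p : Fin n × (Fin 3 →₀ ℕ) // (∑ j, p.2 j) < m p.1}

/-- the universal matrix -/
noncomputable def AZ {n : ℕ} (m : Fin n → ℕ) (d : ℕ) (r : Rm m) (c : Cd d) :
    MvPolynomial (Fin n × Fin 3) ℤ :=
  MvPolynomial.coeff r.1.2 (∏ j : Fin 3, (MvPolynomial.X j + MvPolynomial.C
    (MvPolynomial.X (r.1.1, j) : MvPolynomial (Fin n × Fin 3) ℤ) :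
      MvPolynomial (Fin 3) (MvPolynomial (Fin n × Fin 3) ℤ)) ^ (c : Fin 3 →₀ ℕ) j)

theorem AZ_eval {L : Type*} [Field L] {n : ℕ} (v : Fin n → Fin 3 → L) (m : Fin n → ℕ) (d : ℕ)
    (r : Rm m) (c : Cd d) :
    MvPolynomial.aeval (fun q : Fin n × Fin 3 => v q.1 q.2) (AZ m d r c) =
      MvPolynomial.coeff r.1.2 (∏ j : Fin 3, (MvPolynomial.X j + MvPolynomial.C
        (v r.1.1 j) : MvPolynomial (Fin 3) L) ^ (c : Fin 3 →₀ ℕ) j) := by
  unfold AZ
  change ((MvPolynomial.aeval (fun q : Fin n × Fin 3 => v q.1 q.2) :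
    MvPolynomial (Fin n × Fin 3) ℤ →ₐ[ℤ] L) : MvPolynomial (Fin n × Fin 3) ℤ →+* L) _ = _
  rw [← MvPolynomial.coeff_map, map_prod]
  congr 1
  refine Finset.prod_congr rfl fun j _ => ?_
  simp

theorem mult_iff {L : Type*} [Field L] {n : ℕ} (v : Fin n → Fin 3 → L) (m : Fin n → ℕ) {d : ℕ}
    {F : MvPolynomial (Fin 3) L} (hF : F.IsHomogeneous d) (r : Rm m) :
    MvPolynomial.coeff r.1.2 (MvPolynomial.aeval (fun j : Fin 3 =>
      (MvPolynomial.X j + MvPolynomial.C (v r.1.1 j) : MvPolynomial (Fin 3) L)) F) =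
    ∑ c : Cd d, MvPolynomial.aeval (fun q : Fin n × Fin 3 => v q.1 q.2) (AZ m d r c) *
      MvPolynomial.coeff (c : Fin 3 →₀ ℕ) F := by
  classical
  rw [MvPolynomial.aeval_def, MvPolynomial.eval₂_eq', MvPolynomial.coeff_sum]
  have h1 : F.support ⊆ (Finset.univ : Finset (Fin 3)).finsuppAntidiag d := by
    intro s hs
    rw [Finset.mem_finsuppAntidiag]
    refine ⟨?_, Finset.subset_univ _⟩
    have := hF (MvPolynomial.mem_support_iff.1 hs)
    rw [Finsupp.weight_apply, Finsupp.sum_fintype _ _ (by simp)] at this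
    simpa using this
  rw [Finset.sum_subset h1]
  · rw [← Finset.sum_coe_sort]
    refine Finset.sum_congr rfl fun c _ => ?_
    rw [AZ_eval, MvPolynomial.algebraMap_eq, MvPolynomial.coeff_C_mul, mul_comm]
  · intro s _ hs
    rw [MvPolynomial.notMem_support_iff.1 hs, map_zero, zero_mul, MvPolynomial.coeff_zero]

/-- the polynomial of a choice of conditions -/
noncomputable def GZ {n : ℕ} (m : Fin n → ℕ) (d : ℕ) (f : Cd d → Rm m) :
    MvPolynomial (Fin n × Fin 3) ℤ :=
  (Matrix.of fun c c' => AZ m d (f c) c').det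

theorem GZ_eval {L : Type*} [Field L] {n : ℕ} (v : Fin n → Fin 3 → L) (m : Fin n → ℕ) (d : ℕ)
    (f : Cd d → Rm m) : MvPolynomial.aeval (fun q : Fin n × Fin 3 => v q.1 q.2) (GZ m d f) =
      (Matrix.of fun c c' => MvPolynomial.aeval (fun q : Fin n × Fin 3 => v q.1 q.2)
        (AZ m d (f c) c')).det := by
  unfold GZ
  rw [AlgHom.map_det]
  rfl

/-- nonvanishing of the polynomial excludes curves -/
theorem GZ_works {L : Type*} [Field L] {n : ℕ} (v : Fin n → Fin 3 → L) (m : Fin n → ℕ) {d : ℕ}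
    (f : Cd d → Rm m)
    (hG : MvPolynomial.aeval (fun q : Fin n × Fin 3 => v q.1 q.2) (GZ m d f) ≠ 0)
    {F : MvPolynomial (Fin 3) L} (hF : F.IsHomogeneous d) (hm : ∀ i, MultAt (v i) F (m i)) :
    F = 0 := by
  rw [GZ_eval] at hG
  have h1 : (fun c : Cd d => MvPolynomial.coeff (c : Fin 3 →₀ ℕ) F) = 0 := by
    apply Matrix.eq_zero_of_mulVec_eq_zero hG
    funext c
    have h2 := mult_iff v m hF (f c)
    rw [hm _ _ (f c).2] at h2
    exact h2.symm
  ext s
  rw [MvPolynomial.coeff_zero]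
  by_contra hs
  have h2 : s ∈ (Finset.univ : Finset (Fin 3)).finsuppAntidiag d := by
    rw [Finset.mem_finsuppAntidiag]
    refine ⟨?_, Finset.subset_univ _⟩
    have := hF hs
    rw [Finsupp.weight_apply, Finsupp.sum_fintype _ _ (by simp)] at this
    simpa using this
  exact hs (congrFun h1 ⟨s, h2⟩)

/-- existence of the polynomial -/
theorem exists_GZ {K : Type*} [Field K] {n : ℕ} (u : Fin n → Fin 3 → K) (m : Fin n → ℕ) (d : ℕ)
    (h : ∀ F : MvPolynomial (Fin 3) K, F.IsHomogeneous d → (∀ i, MultAt (u i) F (m i)) → F = 0) :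
    ∃ f : Cd d → Rm m,
      MvPolynomial.aeval (fun q : Fin n × Fin 3 => u q.1 q.2) (GZ m d f) ≠ 0 := by
  classical
  obtain ⟨f, hf⟩ := exists_minor (fun (r : Rm m) (c : Cd d) =>
    MvPolynomial.aeval (fun q : Fin n × Fin 3 => u q.1 q.2) (AZ m d r c)) (by
      intro x hx
      obtain ⟨F, hFd⟩ : ∃ F : MvPolynomial (Fin 3) K, F = ∑ c : Cd d,
        MvPolynomial.monomial (c : Fin 3 →₀ ℕ) (x c) := ⟨_, rfl⟩
      have hc : ∀ c : Cd d, MvPolynomial.coeff (c : Fin 3 →₀ ℕ) F = x c := by
        intro c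
        rw [hFd, MvPolynomial.coeff_sum, Finset.sum_eq_single c]
        · rw [MvPolynomial.coeff_monomial, if_pos rfl]
        · intro c' _ hne
          rw [MvPolynomial.coeff_monomial, if_neg]
          exact fun h => hne (Subtype.ext h)
        · intro h; exact absurd (Finset.mem_univ _) h
      have hF : F.IsHomogeneous d := by
        rw [hFd]
        apply MvPolynomial.IsHomogeneous.sum
        intro c _
        apply MvPolynomial.isHomogeneous_monomial
        have := (Finset.mem_finsuppAntidiag.1 c.2).1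
        rw [Finsupp.degree_eq_sum]
        exact this
      have hF0 : F = 0 := by
        apply h F hF
        intro i s hs
        have h2 := mult_iff u m hF ⟨(i, s), hs⟩
        rw [h2]
        rw [← hx ⟨(i, s), hs⟩]
        exact Finset.sum_congr rfl fun c _ => by rw [hc c]
      funext c
      rw [← hc c, hF0, MvPolynomial.coeff_zero]
      rfl)
  refine ⟨f, ?_⟩
  rw [GZ_eval]
  exact hf

/-- naturality of the polynomial -/
theorem GZ_map {K L : Type*} [Field K] [Field L] (φ : K →+* L) {n : ℕ} (u : Fin n → Fin 3 → K)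
    (m : Fin n → ℕ) (d : ℕ) (f : Cd d → Rm m)
    (h : MvPolynomial.aeval (fun q : Fin n × Fin 3 => u q.1 q.2) (GZ m d f) ≠ 0) :
    MvPolynomial.aeval (fun q : Fin n × Fin 3 => φ (u q.1 q.2)) (GZ m d f) ≠ 0 := by
  have h1 : MvPolynomial.aeval (fun q : Fin n × Fin 3 => φ (u q.1 q.2)) (GZ m d f) =
      φ (MvPolynomial.aeval (fun q : Fin n × Fin 3 => u q.1 q.2) (GZ m d f)) := by
    have h2 : (MvPolynomial.aeval (R := ℤ) (fun q : Fin n × Fin 3 => φ (u q.1 q.2))).toRingHom =
        φ.comp (MvPolynomial.aeval (R := ℤ) (fun q : Fin n × Fin 3 => u q.1 q.2)).toRingHom := by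
      apply MvPolynomial.ringHom_ext
      · intro r; simp
      · intro j; simp
    exact congrArg (fun g : MvPolynomial (Fin n × Fin 3) ℤ →+* L => g (GZ m d f)) h2
  rw [h1]
  exact fun h0 => h ((map_eq_zero φ).1 h0)

end Pool.Agent.Y206
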