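import Pool.Agent.Y206.Patch

set_option autoImplicit false

/-!
# The window theorem

Going once around the triangle of lines degenerating from a Hesse cubic, one finds that the leading
exponents of the values of a form of degree `d` at suitable places lie in a triangle.
-/

namespace Pool.Agent.Y206

open HahnSeries

/-- the second coordinate -/
noncomputable def zz (β θ1 : ℝ) : HH := HahnSeries.single (pt β θ1) 1

/-- the cubic -/
noncomputable def gg (β θ1 : ℝ) (x : HH) : HH :=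
  x ^ 3 - x * zz β θ1 * (io mu)⁻¹ + 1 + zz β θ1 ^ 3

/-- a standard place -/
structure BPlace (β θ1 θ2 w : ℝ) (x : HH) : Prop where
  x0 : x ≠ 0
  ox : x.order = pt (1 - β) (-θ1)
  g0 : gg β θ1 x ≠ 0
  og : (gg β θ1 x).order = pt w θ2

/-- independence of the infinitesimal parts -/
def IndT (θ1 θ2 : ℝ) : Prop :=
  ∀ (h h' : ℤ) (j j' : ℕ), (h : ℝ) * θ1 + j * θ2 = (h' : ℝ) * θ1 + j' * θ2 → h = h' ∧ j = j'

theorem zz_ne (β θ1 : ℝ) : zz β θ1 ≠ 0 := HahnSeries.single_ne_zero one_ne_zero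

theorem zz_order (β θ1 : ℝ) : (zz β θ1).order = pt β θ1 := HahnSeries.order_single one_ne_zero

theorem io_mu_ne : io mu ≠ 0 := by
  rw [io_mu]; exact HahnSeries.single_ne_zero one_ne_zero

theorem isPlace_of {β θ1 θ2 w : ℝ} {x : HH} (hβ : β < 1) (hθ : IndT θ1 θ2)
    (h : BPlace β θ1 θ2 w x) : IsPlace x (zz β θ1) (gg β θ1 x) where
  hz := zz_ne _ _
  hg := h.g0
  rel := by
    have h1 := io_mu_ne
    have h2 := zz_ne β θ1
    unfold gg
    field_simp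
    ring
  small := by
    refine ⟨1 - β, ?_, ?_⟩
    · have := Big.order x
      rw [h.ox] at this
      exact this
    · rw [zz_order]
      simp only [r1_pt]
      linarith
  ind := by
    intro p q hpq
    rw [zz_order, h.og] at hpq
    simp only [r2_pt] at hpq
    obtain ⟨h1, h2⟩ := hθ _ _ _ _ hpq
    exact Prod.ext h1 h2

theorem inv_order {x : HH} (hx : x ≠ 0) : (x⁻¹).order = - x.order := by
  have := order_zpow' hx (-1)
  rw [zpow_neg_one, neg_one_zsmul] at this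
  exact this

theorem isPlace_shift {β θ1 θ2 w : ℝ} {x : HH} (hβ0 : 0 < β) (hθ : IndT θ1 θ2)
    (h : BPlace β θ1 θ2 w x) :
    IsPlace (zz β θ1 / x) x⁻¹ (gg β θ1 x / x ^ 3) ∧ (x⁻¹).order = pt (β - 1) θ1 ∧
      (gg β θ1 x / x ^ 3).order = pt (w - 3 * (1 - β)) (θ2 + 3 * θ1) := by
  have hx := h.x0
  have hz := zz_ne β θ1
  have hz' : (x⁻¹).order = pt (β - 1) θ1 := by
    rw [inv_order hx, h.ox]
    exact gam_ext (by simp) (by simp)
  have hg' : (gg β θ1 x / x ^ 3).order = pt (w - 3 * (1 - β)) (θ2 + 3 * θ1) := by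
    rw [order_div' h.g0 (pow_ne_zero _ hx), h.og, HahnSeries.order_pow, h.ox]
    exact gam_ext (by simp only [r1_sub, r1_pt, r1_nsmul]; push_cast; ring)
      (by simp only [r2_sub, r2_pt, r2_nsmul]; push_cast; ring)
  refine ⟨⟨inv_ne_zero hx, div_ne_zero h.g0 (pow_ne_zero _ hx), ?_, ?_, ?_⟩, hz', hg'⟩
  · have h1 := io_mu_ne
    unfold gg
    field_simp
    ring
  · refine ⟨2 * β - 1, ?_, ?_⟩
    · have := Big.order (zz β θ1 / x)
      rw [order_div' hz hx, h.ox, zz_order] at this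
      refine this.mono (le_of_eq ?_)
      simp only [r1_sub, r1_pt]
      ring
    · rw [hz']
      simp only [r1_pt]
      linarith
  · intro p q hpq
    rw [hz', hg'] at hpq
    simp only [r2_pt] at hpq
    have h1 : ((p.1 + 3 * (p.2 : ℤ) : ℤ) : ℝ) * θ1 + p.2 * θ2 =
        ((q.1 + 3 * (q.2 : ℤ) : ℤ) : ℝ) * θ1 + q.2 * θ2 := by
      push_cast
      linarith
    obtain ⟨h2, h3⟩ := hθ _ _ _ _ h1
    refine Prod.ext ?_ h3
    rw [h3] at h2
    linarith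

/-- cyclic permutation of the variables -/
noncomputable def cyc (R : MvPolynomial (Fin 3) Om) : MvPolynomial (Fin 3) Om :=
  MvPolynomial.rename (fun i : Fin 3 => i + 1) R

theorem cyc_hom {R : MvPolynomial (Fin 3) Om} {d : ℕ} (hR : R.IsHomogeneous d) :
    (cyc R).IsHomogeneous d := hR.rename_isHomogeneous

theorem cyc3 (R : MvPolynomial (Fin 3) Om) : cyc (cyc (cyc R)) = R := by
  unfold cyc
  rw [MvPolynomial.rename_rename, MvPolynomial.rename_rename]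
  have : ((fun i : Fin 3 => i + 1) ∘ fun i : Fin 3 => i + 1) ∘ (fun i : Fin 3 => i + 1) = id := by
    funext i
    fin_cases i <;> rfl
  rw [this]
  exact MvPolynomial.rename_id_apply R

theorem evR_cyc {R : MvPolynomial (Fin 3) Om} {d : ℕ} (hR : R.IsHomogeneous d) {x z : HH}
    (hx : x ≠ 0) : evR R x z = x ^ d * evR (cyc R) (z / x) x⁻¹ := by
  unfold evR cyc
  rw [MvPolynomial.eval₂_rename, MvPolynomial.eval₂_eq', MvPolynomial.eval₂_eq', Finset.mul_sum]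
  refine Finset.sum_congr rfl fun s hs => ?_
  have hdeg : s 0 + s 1 + s 2 = d := by
    have := hR (MvPolynomial.mem_support_iff.1 hs)
    rw [← this, Finsupp.weight_apply, Finsupp.sum_fintype _ _ (by simp), Fin.sum_univ_three]
    simp
  rw [← hdeg]
  simp only [Fin.prod_univ_three, Function.comp_apply]
  change io (MvPolynomial.coeff s R) * (x ^ s 0 * 1 ^ s 1 * z ^ s 2) =
    x ^ (s 0 + s 1 + s 2) * (io (MvPolynomial.coeff s R) *
      (1 ^ s 0 * (x⁻¹) ^ s 1 * (z / x) ^ s 2))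
  rw [one_pow, one_pow, inv_pow, div_pow]
  field_simp
  ring

theorem evR_shift_order {R : MvPolynomial (Fin 3) Om} {d : ℕ} (hR : R.IsHomogeneous d)
    {β θ1 θ2 w : ℝ} {x : HH} (h : BPlace β θ1 θ2 w x) (h0 : evR R x (zz β θ1) ≠ 0) :
    evR (cyc R) (zz β θ1 / x) x⁻¹ ≠ 0 ∧ (evR (cyc R) (zz β θ1 / x) x⁻¹).order =
      (evR R x (zz β θ1)).order - d • pt (1 - β) (-θ1) := by
  have e := evR_cyc hR (z := zz β θ1) h.x0
  have h1 : evR (cyc R) (zz β θ1 / x) x⁻¹ ≠ 0 := by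
    intro h1
    rw [h1, mul_zero] at e
    exact h0 e
  refine ⟨h1, ?_⟩
  rw [e, HahnSeries.order_mul (pow_ne_zero _ h.x0) h1, HahnSeries.order_pow, h.ox]
  abel

theorem evR_shift_ne {R : MvPolynomial (Fin 3) Om} {d : ℕ} (hR : R.IsHomogeneous d)
    {β θ1 θ2 w : ℝ} {x : HH} (h : BPlace β θ1 θ2 w x)
    (h0 : evR (cyc R) (zz β θ1 / x) x⁻¹ ≠ 0) : evR R x (zz β θ1) ≠ 0 := by
  rw [evR_cyc hR (z := zz β θ1) h.x0]
  exact mul_ne_zero (pow_ne_zero _ h.x0) h0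

variable {β θ1 θ2 : ℝ}

theorem link_fwd (hβ0 : 0 < β) (hβ : β < 1) (hθ : IndT θ1 θ2) {w w' : ℝ} {x x' : HH}
    (hx : BPlace β θ1 θ2 w x) (hx' : BPlace β θ1 θ2 w' x') {Q : MvPolynomial (Fin 3) Om} {d : ℕ}
    (hQ : Q.IsHomogeneous d) (h0 : evR Q x (zz β θ1) ≠ 0) :
    evR (cyc Q) x' (zz β θ1) ≠ 0 ∧ ∀ (h : ℤ) (j : ℕ),
      r2 (evR Q x (zz β θ1)).order = h * θ1 + j * θ2 →
      r1 (evR (cyc Q) x' (zz β θ1)).order ≤ r1 (evR Q x (zz β θ1)).order - d * (1 - β) +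
        (h + d - 3 * j) + j * (w' - w + 3 - 3 * β) := by
  obtain ⟨hA, hzA, hgA⟩ := isPlace_shift hβ0 hθ hx
  have hB := isPlace_of hβ hθ hx'
  obtain ⟨h1, h2⟩ := evR_shift_order hQ hx h0
  obtain ⟨h3, h', j', h4, h5⟩ := compare hA hB (cyc Q) h1
  refine ⟨h3, fun h j hhj => ?_⟩
  rw [h2, hzA, hgA] at h4 h5
  simp only [r1_sub, r2_sub, r1_nsmul, r2_nsmul, r1_pt, r2_pt] at h4 h5
  rw [hhj] at h4
  have h6 : ((h' + 3 * (j' : ℤ) : ℤ) : ℝ) * θ1 + j' * θ2 = ((h + d : ℤ) : ℝ) * θ1 + j * θ2 := by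
    push_cast
    linarith
  obtain ⟨h7, h8⟩ := hθ _ _ _ _ h6
  rw [h8] at h7 h5
  have h9 : (h' : ℝ) = h + d - 3 * j := by
    have : h' = h + d - 3 * (j : ℤ) := by linarith
    rw [this]; push_cast; ring
  rw [h9] at h5
  have e1 : r1 (zz β θ1).order = β := by rw [zz_order]; rfl
  have e2 : r1 (gg β θ1 x').order = w' := by rw [hx'.og]; rfl
  rw [e1, e2] at h5
  linarith

theorem link_bwd (hβ0 : 0 < β) (hβ : β < 1) (hθ : IndT θ1 θ2) {w w' : ℝ} {x x' : HH}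
    (hx : BPlace β θ1 θ2 w x) (hx' : BPlace β θ1 θ2 w' x') {Q : MvPolynomial (Fin 3) Om} {d : ℕ}
    (hQ : Q.IsHomogeneous d) (h0 : evR (cyc Q) x' (zz β θ1) ≠ 0) :
    ∀ (h : ℤ) (j : ℕ),
      r2 (evR (cyc Q) x' (zz β θ1)).order = h * θ1 + j * θ2 →
      r1 (evR Q x (zz β θ1)).order - d * (1 - β) ≤ r1 (evR (cyc Q) x' (zz β θ1)).order -
        h + j * (w - 3 + 3 * β - w') := by
  obtain ⟨hA, hzA, hgA⟩ := isPlace_shift hβ0 hθ hx
  have hB := isPlace_of hβ hθ hx'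
  obtain ⟨h3, h', j', h4, h5⟩ := compare hB hA (cyc Q) h0
  have h1 := evR_shift_ne hQ hx h3
  obtain ⟨-, h2⟩ := evR_shift_order hQ hx h1
  intro h j hhj
  rw [h2, hzA, hgA] at h5
  rw [hhj, zz_order, hx'.og] at h4
  simp only [r2_pt] at h4
  simp only [r1_sub, r1_nsmul, r1_pt] at h5
  obtain ⟨h7, h8⟩ := hθ _ _ _ _ h4
  rw [← h7, ← h8] at h5
  have e1 : r1 (zz β θ1).order = β := by rw [zz_order]; rfl
  have e2 : r1 (gg β θ1 x').order = w' := by rw [hx'.og]; rfl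
  rw [e1, e2] at h5
  linarith

theorem exponents (hβ : β < 1) (hθ : IndT θ1 θ2) {w : ℝ} {x : HH}
    (hx : BPlace β θ1 θ2 w x) (Q : MvPolynomial (Fin 3) Om)
    (h0 : evR Q x (zz β θ1) ≠ 0) : ∃ (h : ℤ) (j : ℕ),
      r2 (evR Q x (zz β θ1)).order = h * θ1 + j * θ2 := by
  have hB := isPlace_of hβ hθ hx
  obtain ⟨-, h, j, h1, -⟩ := compare hB hB Q h0
  refine ⟨h, j, ?_⟩
  rw [h1, zz_order, hx.og]
  rfl

/-- **Window theorem** -/
theorem window (hβ0 : 0 < β) (hβ : β < 1) (hθ : IndT θ1 θ2) {w0 : ℝ} {x0 x1 : HH}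
    (hx0 : BPlace β θ1 θ2 w0 x0) (hx1 : BPlace β θ1 θ2 (w0 - 3) x1)
    {Q : MvPolynomial (Fin 3) Om} {d : ℕ} (hQ : Q.IsHomogeneous d)
    (h0 : evR Q x0 (zz β θ1) ≠ 0) (h : ℤ) (j : ℕ)
    (hhj : r2 (evR Q x0 (zz β θ1)).order = h * θ1 + j * θ2) :
    -(1 + β) * (d - 3 * j) ≤ h ∧ (h : ℝ) ≤ (2 - β) * (d - 3 * j) := by
  obtain ⟨n1, P0⟩ := link_fwd hβ0 hβ hθ hx0 hx1 hQ h0
  have M0 := link_bwd hβ0 hβ hθ hx0 hx1 hQ n1
  obtain ⟨n2, P1⟩ := link_fwd hβ0 hβ hθ hx1 hx1 (cyc_hom hQ) n1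
  have M1 := link_bwd hβ0 hβ hθ hx1 hx1 (cyc_hom hQ) n2
  obtain ⟨n3, P2⟩ := link_fwd hβ0 hβ hθ hx1 hx0 (cyc_hom (cyc_hom hQ)) n2
  have M2 := link_bwd hβ0 hβ hθ hx1 hx0 (cyc_hom (cyc_hom hQ)) n3
  rw [cyc3] at P2 M2
  obtain ⟨h1, j1, e1⟩ := exponents hβ hθ hx1 (cyc Q) n1
  obtain ⟨h2, j2, e2⟩ := exponents hβ hθ hx1 (cyc (cyc Q)) n2
  have p0 := P0 h j hhj
  have m0 := M0 h1 j1 e1
  have p1 := P1 h1 j1 e1
  have m1 := M1 h2 j2 e2
  have p2 := P2 h2 j2 e2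
  have m2 := M2 h j hhj
  constructor
  · linarith
  · linarith

/-- the reciprocal of the second coordinate, scaled -/
noncomputable def mm (β θ1 : ℝ) : HH := HahnSeries.single (pt (1 - β) (-θ1)) 1

theorem mm_ne (β θ1 : ℝ) : mm β θ1 ≠ 0 := HahnSeries.single_ne_zero one_ne_zero

theorem mm_zz (β θ1 : ℝ) : mm β θ1 * zz β θ1 = io mu := by
  have h : pt (1 - β) (-θ1) + pt β θ1 = pt 1 0 := gam_ext (by simp) (by simp)
  rw [io_mu, mm, zz, HahnSeries.single_mul_single, one_mul, h]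

theorem gg_mm (β θ1 : ℝ) (y : HH) :
    gg β θ1 (mm β θ1 * y) = (mm β θ1 * y) ^ 3 - y + 1 + zz β θ1 ^ 3 := by
  have h1 := mm_ne β θ1
  have h2 := zz_ne β θ1
  unfold gg
  rw [← mm_zz]
  field_simp

theorem big_mm (β θ1 : ℝ) : Big (1 - β) (mm β θ1) := Big.single (pt (1 - β) (-θ1)) 1

theorem big_zz (β θ1 : ℝ) : Big β (zz β θ1) := Big.single (pt β θ1) 1

theorem mm_order (β θ1 : ℝ) : (mm β θ1).order = pt (1 - β) (-θ1) :=
  HahnSeries.order_single one_ne_zero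

theorem unit_order {y : HH} {r : ℝ} (hr : 0 < r) (h : Big r (y - 1)) :
    y ≠ 0 ∧ y.order = 0 := by
  have := order_of_error (p := (1 : HH)) one_ne_zero (by simpa using hr) h
  simpa using this

theorem bPlace_of {w : ℝ} {y : HH} {r r' : ℝ} (hr : 0 < r) (hy : Big r (y - 1))
    (hr' : w < r')
    (h : Big r' (gg β θ1 (mm β θ1 * y) - HahnSeries.single (pt w θ2) 1)) :
    BPlace β θ1 θ2 w (mm β θ1 * y) := by
  obtain ⟨h1, h2⟩ := unit_order hr hy
  have h3 : (HahnSeries.single (pt w θ2) 1 : HH) ≠ 0 := HahnSeries.single_ne_zero one_ne_zero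
  have h4 : (HahnSeries.single (pt w θ2) 1 : HH).order = pt w θ2 :=
    HahnSeries.order_single one_ne_zero
  obtain ⟨h5, h6⟩ := order_of_error h3 (by rw [h4]; exact hr') h
  refine ⟨mul_ne_zero (mm_ne _ _) h1, ?_, h5, by rw [h6, h4]⟩
  rw [HahnSeries.order_mul (mm_ne _ _) h1, mm_order, h2, add_zero]

theorem big_one_add {y : HH} {r : ℝ} (hr : 0 ≤ r) (h : Big r y) : Big 0 (1 + y) :=
  Big.one.add (h.mono hr)

/-- the intermediate place -/
theorem place1 (hβ0 : 0 < β) (hβ : β < 3 / 4) :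
    BPlace β θ1 θ2 β (mm β θ1 * (1 - HahnSeries.single (pt β θ2) 1)) := by
  have hy : Big β (HahnSeries.single (pt β θ2) (1 : ℚ)) := Big.single _ _
  refine bPlace_of hβ0 ?_ (r' := min (3 * (1 - β)) (3 * β)) ?_ ?_
  · have e : (1 : HH) - HahnSeries.single (pt β θ2) 1 - 1 = -HahnSeries.single (pt β θ2) 1 := by
      ring
    rw [e]; exact hy.neg
  · rw [lt_min_iff]
    constructor <;> linarith
  · rw [gg_mm]
    have e : (mm β θ1 * (1 - HahnSeries.single (pt β θ2) 1)) ^ 3 -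
        (1 - HahnSeries.single (pt β θ2) 1) + 1 + zz β θ1 ^ 3 - HahnSeries.single (pt β θ2) 1 =
        mm β θ1 ^ 3 * (1 + -HahnSeries.single (pt β θ2) 1) ^ 3 + zz β θ1 ^ 3 := by
      ring
    rw [e]
    refine Big.add ?_ ?_
    · have h1 := ((big_mm β θ1).pow 3).mul ((big_one_add hβ0.le hy.neg).pow 3)
      refine h1.mono ?_
      push_cast
      linarith [min_le_left (3 * (1 - β)) (3 * β)]
    · refine ((big_zz β θ1).pow 3).mono ?_
      push_cast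
      linarith [min_le_right (3 * (1 - β)) (3 * β)]

/-- the main place -/
theorem place0 (hβ0 : 0 < β) (hβ : β < 3 / 7) :
    BPlace β θ1 θ2 (3 + β) (mm β θ1 * (1 + zz β θ1 ^ 3 + mm β θ1 ^ 3 * (1 + 3 * zz β θ1 ^ 3) -
      HahnSeries.single (pt (3 + β) θ2) 1)) := by
  obtain ⟨y, hyd⟩ : ∃ y : HH, y = HahnSeries.single (pt (3 + β) θ2) 1 := ⟨_, rfl⟩
  obtain ⟨z, hz⟩ : ∃ z : HH, z = zz β θ1 := ⟨_, rfl⟩
  obtain ⟨m, hm⟩ : ∃ m : HH, m = mm β θ1 := ⟨_, rfl⟩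
  have hy : Big (3 + β) y := by rw [hyd]; exact Big.single _ _
  have hzb : Big (3 * β) (z ^ 3) := by
    rw [hz]
    refine ((big_zz β θ1).pow 3).mono (le_of_eq (by push_cast; ring))
  have hmb : Big (3 * (1 - β)) (m ^ 3) := by
    rw [hm]
    refine ((big_mm β θ1).pow 3).mono (le_of_eq (by push_cast; ring))
  have hthree : Big 0 (3 : HH) := by
    have e : (3 : HH) = 1 + 1 + 1 := by norm_num
    rw [e]
    exact (Big.one.add Big.one).add Big.one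
  have h3z : Big (3 * β) (3 * z ^ 3) := (hthree.mul hzb).mono (by linarith)
  have hz1 : Big 0 (1 + 3 * z ^ 3) := big_one_add (by linarith) h3z
  have hz2 : Big 0 (1 + z ^ 3) := big_one_add (by linarith) hzb
  obtain ⟨δ, hδ⟩ : ∃ δ : HH, δ = m ^ 3 * (1 + 3 * z ^ 3) - y := ⟨_, rfl⟩
  have hδb : Big (3 * (1 - β)) δ := by
    rw [hδ]
    exact ((hmb.mul hz1).mono (by linarith)).sub (hy.mono (by linarith))
  have hδ0 : Big 0 δ := hδb.mono (by linarith)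
  refine bPlace_of (r := min (3 * β) (3 * (1 - β))) ?_ ?_
    (r' := 3 * (1 - β) + min (6 * β) (3 * (1 - β))) ?_ ?_
  · rw [lt_min_iff]; constructor <;> linarith
  · rw [← hyd, ← hz, ← hm]
    have e : 1 + z ^ 3 + m ^ 3 * (1 + 3 * z ^ 3) - y - 1 = z ^ 3 + δ := by rw [hδ]; ring
    rw [e]
    exact (hzb.mono (min_le_left _ _)).add (hδb.mono (min_le_right _ _))
  · have : β + 3 * β < min (6 * β) (3 * (1 - β)) := by
      rw [lt_min_iff]; constructor <;> linarith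
    linarith
  · rw [gg_mm, ← hyd, ← hz, ← hm]
    have e : (m * (1 + z ^ 3 + m ^ 3 * (1 + 3 * z ^ 3) - y)) ^ 3 -
        (1 + z ^ 3 + m ^ 3 * (1 + 3 * z ^ 3) - y) + 1 + z ^ 3 - y =
        m ^ 3 * (z ^ 3 * z ^ 3 * (3 + z ^ 3) + δ * (3 * ((1 + z ^ 3) * (1 + z ^ 3)) +
          3 * δ * (1 + z ^ 3) + δ * δ)) := by
      rw [hδ]; ring
    rw [e]
    refine hmb.mul (Big.add ?_ ?_)
    · have h1 : Big 0 (3 + z ^ 3) := hthree.add (hzb.mono (by linarith))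
      refine ((hzb.mul hzb).mul h1).mono ?_
      linarith [min_le_left (6 * β) (3 * (1 - β))]
    · have h1 : Big 0 (3 * ((1 + z ^ 3) * (1 + z ^ 3)) + 3 * δ * (1 + z ^ 3) + δ * δ) := by
        refine Big.add (Big.add ?_ ?_) ?_
        · exact (hthree.mul (hz2.mul hz2)).mono (by linarith)
        · exact ((hthree.mul hδ0).mul hz2).mono (by linarith)
        · exact (hδ0.mul hδ0).mono (by linarith)
      refine (hδb.mul h1).mono ?_
      linarith [min_le_right (6 * β) (3 * (1 - β))]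

end Pool.Agent.Y206
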