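import Pool.Agent.Y206.Lead

set_option autoImplicit false

/-!
# Multiplicities

Vanishing of a form to order `m` at a point gives divisibility of the derivatives of its Laurent
polynomial, hence of the part of least order.
-/

namespace Pool.Agent.Y206

open HahnSeries

section Dr

variable {R : Type*} [CommRing R]

/-- the divided derivative of order `r` with respect to the second variable, at `1` -/
noncomputable def Dr (r : ℕ) : AddMonoidAlgebra R (ℤ × ℕ) →+ AddMonoidAlgebra R ℤ :=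
  (Finsupp.liftAddHom (fun p : ℤ × ℕ =>
    (AddMonoidAlgebra.singleAddHom p.1).comp (AddMonoidHom.mulRight (p.2.choose r : R)))).comp
    AddMonoidAlgebra.coeffAddEquiv.toAddMonoidHom

theorem Dr_single (r : ℕ) (p : ℤ × ℕ) (c : R) :
    Dr r (AddMonoidAlgebra.single p c) = AddMonoidAlgebra.single p.1 (c * (p.2.choose r : R)) := by
  simp [Dr]

theorem Dr_T_mul (r : ℕ) (h : ℤ) (u : R) (P : AddMonoidAlgebra R (ℤ × ℕ)) :
    Dr r (AddMonoidAlgebra.single (h, 0) u * P) = AddMonoidAlgebra.single h u * Dr r P := by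
  induction P using AddMonoidAlgebra.induction_linear with
  | zero => simp
  | add P Q hP hQ => rw [mul_add, map_add, hP, hQ, map_add, mul_add]
  | single p c =>
    rw [AddMonoidAlgebra.single_mul_single, Dr_single, Dr_single,
      AddMonoidAlgebra.single_mul_single]
    simp only [Prod.fst_add, Prod.snd_add, zero_add]
    rw [mul_assoc]

theorem Dr_Y_mul (r : ℕ) (P : AddMonoidAlgebra R (ℤ × ℕ)) :
    Dr (r + 1) (AddMonoidAlgebra.single (0, 1) 1 * P) = Dr (r + 1) P + Dr r P := by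
  induction P using AddMonoidAlgebra.induction_linear with
  | zero => simp
  | add P Q hP hQ => rw [mul_add, map_add, hP, hQ, map_add, map_add]; abel
  | single p c =>
    rw [AddMonoidAlgebra.single_mul_single, Dr_single, Dr_single, Dr_single]
    simp only [Prod.fst_add, Prod.snd_add, zero_add, one_mul]
    rw [← AddMonoidAlgebra.single_add, ← mul_add, add_comm 1 p.2, Nat.choose_succ_succ,
      Nat.cast_add]
    congr 2
    ring

theorem Dr_Y_mul_zero (P : AddMonoidAlgebra R (ℤ × ℕ)) :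
    Dr 0 (AddMonoidAlgebra.single (0, 1) 1 * P) = Dr 0 P := by
  induction P using AddMonoidAlgebra.induction_linear with
  | zero => simp
  | add P Q hP hQ => rw [mul_add, map_add, hP, hQ, map_add]
  | single p c =>
    rw [AddMonoidAlgebra.single_mul_single, Dr_single, Dr_single]
    simp

/-- the ideal of a point -/
noncomputable def JJ (c : R) : Ideal (AddMonoidAlgebra R (ℤ × ℕ)) :=
  Ideal.span {AddMonoidAlgebra.single ((1 : ℤ), (0 : ℕ)) (1 : R) -
    AddMonoidAlgebra.single ((0 : ℤ), (0 : ℕ)) c,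
    AddMonoidAlgebra.single ((0 : ℤ), (1 : ℕ)) (1 : R) - 1}

theorem Dr_dvd (c : R) (m : ℕ) : ∀ P ∈ JJ c ^ m, ∀ r,
    (AddMonoidAlgebra.single (1 : ℤ) (1 : R) - AddMonoidAlgebra.single (0 : ℤ) c) ^ (m - r) ∣
      Dr r P := by
  induction m with
  | zero => intro P _ r; simp
  | succ m ih =>
    intro P hP r
    rw [pow_succ'] at hP
    refine Submodule.mul_induction_on hP ?_ ?_
    · intro a ha b hb
      obtain ⟨u, v, rfl⟩ := Ideal.mem_span_pair.1 ha
      have h1 : (u * (AddMonoidAlgebra.single ((1 : ℤ), (0 : ℕ)) (1 : R) -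
          AddMonoidAlgebra.single ((0 : ℤ), (0 : ℕ)) c) +
          v * (AddMonoidAlgebra.single ((0 : ℤ), (1 : ℕ)) (1 : R) - 1)) * b =
          AddMonoidAlgebra.single ((1 : ℤ), (0 : ℕ)) (1 : R) * (u * b) -
          AddMonoidAlgebra.single ((0 : ℤ), (0 : ℕ)) c * (u * b) +
          (AddMonoidAlgebra.single ((0 : ℤ), (1 : ℕ)) (1 : R) * (v * b) - v * b) := by ring
      rw [h1, map_add, map_sub, map_sub, Dr_T_mul, Dr_T_mul, ← sub_mul]
      have hub : u * b ∈ JJ c ^ m := Ideal.mul_mem_left _ _ hb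
      have hvb : v * b ∈ JJ c ^ m := Ideal.mul_mem_left _ _ hb
      refine dvd_add ?_ ?_
      · refine dvd_trans (pow_dvd_pow _ (show m + 1 - r ≤ (m - r) + 1 by omega)) ?_
        rw [pow_succ']
        exact mul_dvd_mul_left _ (ih _ hub r)
      · rcases r with _ | r
        · rw [Dr_Y_mul_zero, sub_self]
          exact dvd_zero _
        · rw [Dr_Y_mul, add_sub_cancel_left, Nat.add_sub_add_right]
          exact ih _ hvb r
    · intro x y hx hy
      rw [map_add]
      exact dvd_add hx hy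

end Dr

theorem prod_pow_mem {B : Type*} [CommRing B] (J : Ideal B) (e : Fin 3 → B) (he : ∀ j, e j ∈ J)
    (s : Fin 3 →₀ ℕ) : ∏ j, e j ^ s j ∈ J ^ (∑ j, s j) := by
  rw [← Finset.prod_pow_eq_pow_sum]
  exact Ideal.prod_mem_prod fun j _ => Ideal.pow_mem_pow (he j) _

theorem taylor_mem {A B : Type*} [CommRing A] [CommRing B] (f : A →+* B) (J : Ideal B)
    (v : Fin 3 → A) (e : Fin 3 → B) (he : ∀ j, e j ∈ J) (Q : MvPolynomial (Fin 3) A) (m : ℕ)
    (hQ : ∀ s : Fin 3 →₀ ℕ, (∑ j, s j) < m → MvPolynomial.coeff s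
      (MvPolynomial.aeval (fun j : Fin 3 =>
        (MvPolynomial.X j + MvPolynomial.C (v j) : MvPolynomial (Fin 3) A)) Q) = 0) :
    MvPolynomial.eval₂ f (fun j => f (v j) + e j) Q ∈ J ^ m := by
  have h1 : MvPolynomial.eval₂ f (fun j => f (v j) + e j) Q = MvPolynomial.eval₂ f e
      (MvPolynomial.aeval (fun j : Fin 3 =>
        (MvPolynomial.X j + MvPolynomial.C (v j) : MvPolynomial (Fin 3) A)) Q) := by
    have h2 : MvPolynomial.eval₂Hom f (fun j => f (v j) + e j) = (MvPolynomial.eval₂Hom f e).comp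
      (MvPolynomial.aeval (fun j : Fin 3 =>
        (MvPolynomial.X j + MvPolynomial.C (v j) : MvPolynomial (Fin 3) A))).toRingHom := by
      apply MvPolynomial.ringHom_ext
      · intro r
        simp
      · intro j
        simp [add_comm]
    exact congrArg (fun g : MvPolynomial (Fin 3) A →+* B => g Q) h2
  rw [h1, MvPolynomial.eval₂_eq']
  refine Ideal.sum_mem _ fun s _ => ?_
  by_cases hs : (∑ j, s j) < m
  · rw [hQ s hs, map_zero, zero_mul]
    exact Ideal.zero_mem _
  · exact Ideal.mul_mem_left _ _ (Ideal.pow_le_pow_right (not_lt.1 hs) (prod_pow_mem J e he s))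

/-- the constants -/
noncomputable def cc : Om →+* LL := AddMonoidAlgebra.singleZeroRingHom

theorem cc_apply (u : Om) : cc u = AddMonoidAlgebra.single ((0 : ℤ), (0 : ℕ)) u := rfl

/-- the points over `Om` -/
noncomputable def vv (β : ℝ) (k : ℕ) (q : ℚ) : Fin 3 → Om :=
  ![HahnSeries.single (1 - β) (1 : ℚ) * (HahnSeries.C q)⁻¹ *
      (1 + (HahnSeries.single β (1 : ℚ) * HahnSeries.C q) ^ 3 +
        (HahnSeries.single (1 - β) (1 : ℚ) * (HahnSeries.C q)⁻¹) ^ 3 *
          (1 + 3 * (HahnSeries.single β (1 : ℚ) * HahnSeries.C q) ^ 3) -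
        HahnSeries.single (3 + β) (1 : ℚ) * ((HahnSeries.C q)⁻¹) ^ k),
    1, HahnSeries.single β (1 : ℚ) * HahnSeries.C q]

theorem GG_mem {β : ℝ} {k : ℕ} {q : ℚ} (hq : q ≠ 0) {Q : MvPolynomial (Fin 3) Om} {m : ℕ}
    (hQ : ∀ s : Fin 3 →₀ ℕ, (∑ j, s j) < m → MvPolynomial.coeff s
      (MvPolynomial.aeval (fun j : Fin 3 =>
        (MvPolynomial.X j + MvPolynomial.C (vv β k q j) : MvPolynomial (Fin 3) Om)) Q) = 0) :
    GG β k Q ∈ JJ (HahnSeries.C q : Om) ^ m := by
  obtain ⟨J, hJ⟩ : ∃ J, J = JJ (HahnSeries.C q : Om) := ⟨_, rfl⟩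
  have hC0 : (HahnSeries.C q : Om) ≠ 0 := HahnSeries.C_ne_zero hq
  have e1 : bz β = cc (HahnSeries.single β (1 : ℚ)) *
      AddMonoidAlgebra.single ((1 : ℤ), (0 : ℕ)) (1 : Om) := by
    rw [bz, cc_apply, AddMonoidAlgebra.single_mul_single]; simp
  have e2 : bm β = cc (HahnSeries.single (1 - β) (1 : ℚ)) *
      AddMonoidAlgebra.single ((-1 : ℤ), (0 : ℕ)) (1 : Om) := by
    rw [bm, cc_apply, AddMonoidAlgebra.single_mul_single]; simp
  have e3 : (AddMonoidAlgebra.single (-(k : ℤ), (1 : ℕ)) (HahnSeries.single (3 + β) (1 : ℚ)) : LL) =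
      cc (HahnSeries.single (3 + β) (1 : ℚ)) *
      (AddMonoidAlgebra.single ((-1 : ℤ), (0 : ℕ)) (1 : Om) ^ k *
        AddMonoidAlgebra.single ((0 : ℤ), (1 : ℕ)) (1 : Om)) := by
    rw [cc_apply, AddMonoidAlgebra.single_pow, AddMonoidAlgebra.single_mul_single,
      AddMonoidAlgebra.single_mul_single]
    simp
  have hT : Ideal.Quotient.mk J (AddMonoidAlgebra.single ((1 : ℤ), (0 : ℕ)) (1 : Om)) =
      Ideal.Quotient.mk J (cc (HahnSeries.C q)) := by
    rw [Ideal.Quotient.eq, hJ]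
    exact Ideal.subset_span (Set.mem_insert _ _)
  have hY : Ideal.Quotient.mk J (AddMonoidAlgebra.single ((0 : ℤ), (1 : ℕ)) (1 : Om)) = 1 := by
    rw [← map_one (Ideal.Quotient.mk J), Ideal.Quotient.eq, hJ]
    exact Ideal.subset_span (Set.mem_insert_of_mem _ rfl)
  have hTi : Ideal.Quotient.mk J (AddMonoidAlgebra.single ((-1 : ℤ), (0 : ℕ)) (1 : Om)) =
      Ideal.Quotient.mk J (cc ((HahnSeries.C q)⁻¹)) := by
    have h1 : (AddMonoidAlgebra.single ((-1 : ℤ), (0 : ℕ)) (1 : Om) *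
        AddMonoidAlgebra.single ((1 : ℤ), (0 : ℕ)) (1 : Om) : LL) = 1 := by
      rw [AddMonoidAlgebra.single_mul_single]
      simp only [Prod.mk_add_mk, neg_add_cancel, add_zero, mul_one]
      rfl
    have h2 : cc (HahnSeries.C q) * cc ((HahnSeries.C q)⁻¹) = 1 := by
      rw [← map_mul, mul_inv_cancel₀ hC0, map_one]
    calc Ideal.Quotient.mk J (AddMonoidAlgebra.single ((-1 : ℤ), (0 : ℕ)) (1 : Om))
        = Ideal.Quotient.mk J (AddMonoidAlgebra.single ((-1 : ℤ), (0 : ℕ)) (1 : Om)) *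
          Ideal.Quotient.mk J (cc (HahnSeries.C q) * cc ((HahnSeries.C q)⁻¹)) := by
          rw [h2, map_one, mul_one]
      _ = Ideal.Quotient.mk J (AddMonoidAlgebra.single ((-1 : ℤ), (0 : ℕ)) (1 : Om)) *
          Ideal.Quotient.mk J (AddMonoidAlgebra.single ((1 : ℤ), (0 : ℕ)) (1 : Om)) *
          Ideal.Quotient.mk J (cc ((HahnSeries.C q)⁻¹)) := by
          rw [map_mul, hT, mul_assoc]
      _ = Ideal.Quotient.mk J (cc ((HahnSeries.C q)⁻¹)) := by
          rw [← map_mul, h1, map_one, one_mul]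
  have hz : Ideal.Quotient.mk J (bz β) = Ideal.Quotient.mk J (cc (vv β k q 2)) := by
    rw [e1, map_mul, hT, ← map_mul, ← map_mul]
    rfl
  have hm : Ideal.Quotient.mk J (bm β) = Ideal.Quotient.mk J
      (cc (HahnSeries.single (1 - β) (1 : ℚ) * (HahnSeries.C q)⁻¹)) := by
    rw [e2, map_mul, hTi, ← map_mul, ← map_mul]
  have hx : Ideal.Quotient.mk J (bx β k) = Ideal.Quotient.mk J (cc (vv β k q 0)) := by
    unfold bx
    rw [e3]
    simp only [map_mul, map_add, map_sub, map_pow, map_one, map_ofNat, hz, hm, hY, hTi]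
    simp only [vv, Matrix.cons_val_zero, Matrix.cons_val, map_mul, map_add, map_sub, map_pow,
      map_one, map_ofNat, mul_one]
  have hmem := taylor_mem cc J (vv β k q)
    (fun j => (![bx β k, 1, bz β] : Fin 3 → LL) j - cc (vv β k q j)) (by
      intro j
      fin_cases j
      · exact (Ideal.Quotient.eq).1 hx
      · change (1 : LL) - cc 1 ∈ J
        rw [map_one, sub_self]
        exact J.zero_mem
      · exact (Ideal.Quotient.eq).1 hz) Q m hQ
  rw [← hJ]
  have e4 : (fun j => cc (vv β k q j) + ((![bx β k, 1, bz β] : Fin 3 → LL) j -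
      cc (vv β k q j))) = ![bx β k, 1, bz β] := by
    funext j
    ring
  rw [e4] at hmem
  exact hmem

/-- coefficient extraction -/
noncomputable def ex {ι : Type*} (c : ℝ) : AddMonoidAlgebra Om ι →+ AddMonoidAlgebra ℚ ι :=
  (AddMonoidAlgebra.coeffAddEquiv.symm.toAddMonoidHom.comp
    (Finsupp.mapRange.addMonoidHom (HahnSeries.coeff.addMonoidHom c))).comp
    AddMonoidAlgebra.coeffAddEquiv.toAddMonoidHom

theorem ex_coeff {ι : Type*} (c : ℝ) (P : AddMonoidAlgebra Om ι) (p : ι) :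
    (ex c P).coeff p = (P.coeff p).coeff c := rfl

theorem ex_single {ι : Type*} (c : ℝ) (p : ι) (u : Om) :
    ex c (AddMonoidAlgebra.single p u) = AddMonoidAlgebra.single p (u.coeff c) := by
  simp [ex]

theorem ex_Dr (c : ℝ) (r : ℕ) (P : LL) : ex c (Dr r P) = Dr r (ex c P) := by
  induction P using AddMonoidAlgebra.induction_linear with
  | zero => simp
  | add P Q hP hQ => rw [map_add, map_add, hP, hQ, map_add, map_add]
  | single p u =>
    rw [Dr_single, ex_single, ex_single, Dr_single]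
    congr 1
    have h : ((p.2.choose r : ℕ) : Om) = HahnSeries.single (0 : ℝ) ((p.2.choose r : ℕ) : ℚ) :=
      (HahnSeries.single_zero_natCast (R := ℚ) (Γ := ℝ) _).symm
    rw [h, HahnSeries.coeff_mul_single_zero]

theorem ex_mul (c : ℝ) (q : ℚ) (P : AddMonoidAlgebra Om ℤ) :
    ex c ((AddMonoidAlgebra.single (1 : ℤ) (1 : Om) -
      AddMonoidAlgebra.single (0 : ℤ) (HahnSeries.C q)) * P) =
    (AddMonoidAlgebra.single (1 : ℤ) (1 : ℚ) - AddMonoidAlgebra.single (0 : ℤ) q) * ex c P := by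
  induction P using AddMonoidAlgebra.induction_linear with
  | zero => simp
  | add P Q hP hQ => rw [mul_add, map_add, hP, hQ, map_add, mul_add]
  | single p u =>
    rw [sub_mul, map_sub, AddMonoidAlgebra.single_mul_single, AddMonoidAlgebra.single_mul_single,
      ex_single, ex_single, ex_single, sub_mul, AddMonoidAlgebra.single_mul_single,
      AddMonoidAlgebra.single_mul_single, one_mul, one_mul]
    congr 2
    change (HahnSeries.single (0 : ℝ) q * u).coeff c = _
    rw [HahnSeries.coeff_single_zero_mul]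

theorem ex_dvd (c : ℝ) (q : ℚ) (n : ℕ) (P : AddMonoidAlgebra Om ℤ)
    (h : (AddMonoidAlgebra.single (1 : ℤ) (1 : Om) -
      AddMonoidAlgebra.single (0 : ℤ) (HahnSeries.C q)) ^ n ∣ P) :
    (AddMonoidAlgebra.single (1 : ℤ) (1 : ℚ) - AddMonoidAlgebra.single (0 : ℤ) q) ^ n ∣
      ex c P := by
  obtain ⟨S, rfl⟩ := h
  induction n generalizing S with
  | zero => simp
  | succ n ih =>
    have e : (AddMonoidAlgebra.single (1 : ℤ) (1 : Om) -
        AddMonoidAlgebra.single (0 : ℤ) (HahnSeries.C q)) ^ (n + 1) * S =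
      (AddMonoidAlgebra.single (1 : ℤ) (1 : Om) -
        AddMonoidAlgebra.single (0 : ℤ) (HahnSeries.C q)) *
      ((AddMonoidAlgebra.single (1 : ℤ) (1 : Om) -
        AddMonoidAlgebra.single (0 : ℤ) (HahnSeries.C q)) ^ n * S) := by
      rw [pow_succ', mul_assoc]
    rw [e, ex_mul, pow_succ']
    exact mul_dvd_mul_left _ (ih S)

/-- divisibility of the part of least order -/
theorem lead_dvd {β : ℝ} {k : ℕ} {q : ℚ} (hq : q ≠ 0) {Q : MvPolynomial (Fin 3) Om} {m : ℕ}
    (hQ : ∀ s : Fin 3 →₀ ℕ, (∑ j, s j) < m → MvPolynomial.coeff s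
      (MvPolynomial.aeval (fun j : Fin 3 =>
        (MvPolynomial.X j + MvPolynomial.C (vv β k q j) : MvPolynomial (Fin 3) Om)) Q) = 0)
    (c : ℝ) (r : ℕ) :
    (AddMonoidAlgebra.single (1 : ℤ) (1 : ℚ) - AddMonoidAlgebra.single (0 : ℤ) q) ^ (m - r) ∣
      Dr r (ex c (GG β k Q)) := by
  rw [← ex_Dr]
  exact ex_dvd c q _ _ (Dr_dvd _ m _ (GG_mem hq hQ) r)

end Pool.Agent.Y206
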