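import Mathlib.Algebra.Polynomial.RuleOfSigns
import Pool.Agent.Y206.Mult

set_option autoImplicit false

/-!
# Columns and Descartes' rule
-/

namespace Pool.Agent.Y206

open Polynomial

theorem signVar_lt {R : Type*} [CommRing R] [LinearOrder R] [IsStrictOrderedRing R] :
    ∀ (n : ℕ) (P : Polynomial R), P.support.card = n + 1 → signVariations P ≤ n := by
  intro n
  induction n with
  | zero =>
    intro P hP
    have h0 : P ≠ 0 := by
      intro h
      rw [h] at hP
      simp at hP
    have h1 : P.eraseLead = 0 := by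
      rw [← card_support_eq_zero, card_support_eraseLead, hP]
    have h2 := P.eraseLead_add_monomial_natDegree_leadingCoeff
    rw [h1, zero_add] at h2
    rw [← h2, signVariations_monomial]
  | succ n ih =>
    intro P hP
    have h1 : P.eraseLead.support.card = n + 1 := by
      rw [card_support_eraseLead, hP]; rfl
    have h2 := ih _ h1
    have h3 := signVariations_le_eraseLead_succ P
    omega

/-- **Descartes**: the number of terms bounds the number of positive roots. -/
theorem descartes {n : ℕ} {φ : ℚ[X]} (h0 : φ ≠ 0) {c : Fin n → ℚ} (hc : Function.Injective c)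
    (hpos : ∀ i, 0 < c i) (e : Fin n → ℕ) (hd : ∀ i, (X - C (c i)) ^ e i ∣ φ) :
    ∑ i, e i + 1 ≤ φ.support.card := by
  classical
  have hdvd : ∏ i, (X - C (c i)) ^ e i ∣ φ := by
    apply Finset.prod_dvd_of_coprime
    · intro i _ j _ hij
      exact (pairwise_coprime_X_sub_C hc hij).pow
    · intro i _
      exact hd i
  have hroots : (∏ i, (X - C (c i)) ^ e i).roots = ∑ i, Multiset.replicate (e i) (c i) := by
    rw [roots_prod _ _ (Finset.prod_ne_zero_iff.2 fun i _ => pow_ne_zero _ (X_sub_C_ne_zero _))]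
    rw [Multiset.bind, Multiset.join]
    simp only [roots_pow, roots_X_sub_C]
    rw [← Finset.sum_eq_multiset_sum]
    refine Finset.sum_congr rfl fun i _ => ?_
    rw [Multiset.nsmul_singleton]
  have hle : ∑ i, Multiset.replicate (e i) (c i) ≤ φ.roots := by
    rw [← hroots]
    exact roots.le_of_dvd h0 hdvd
  have hcount : (∑ i, Multiset.replicate (e i) (c i)).countP (0 < ·) = ∑ i, e i := by
    have h1 : (∑ i, Multiset.replicate (e i) (c i)).countP (0 < ·) =
        (∑ i, Multiset.replicate (e i) (c i)).card := by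
      rw [Multiset.countP_eq_card]
      intro a ha
      rw [Multiset.mem_sum] at ha
      obtain ⟨i, _, hi⟩ := ha
      rw [Multiset.eq_of_mem_replicate hi]
      exact hpos i
    rw [h1, Multiset.card_sum]
    simp
  have h2 : ∑ i, e i ≤ signVariations φ := by
    rw [← hcount]
    exact (Multiset.countP_le_of_le _ hle).trans (roots_countP_pos_le_signVariations φ)
  have h3 : φ.support.card ≠ 0 := by
    rw [Ne, card_support_eq_zero]; exact h0
  obtain ⟨k, hk⟩ := Nat.exists_eq_succ_of_ne_zero h3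
  have h4 := signVar_lt k φ hk
  omega

theorem laurent_desc {n : ℕ} {φ : AddMonoidAlgebra ℚ ℤ} (h0 : φ ≠ 0) {c : Fin n → ℚ}
    (hc : Function.Injective c) (hpos : ∀ i, 0 < c i) (e : Fin n → ℕ)
    (hd : ∀ i, (AddMonoidAlgebra.single (1 : ℤ) (1 : ℚ) -
      AddMonoidAlgebra.single (0 : ℤ) (c i)) ^ e i ∣ φ) :
    ∑ i, e i + 1 ≤ φ.coeff.support.card := by
  obtain ⟨N, f, hf⟩ := LaurentPolynomial.exists_T_pow φ
  have hX : ∀ i, (AddMonoidAlgebra.single (1 : ℤ) (1 : ℚ) -
      AddMonoidAlgebra.single (0 : ℤ) (c i)) = toLaurent (X - C (c i)) := by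
    intro i
    rw [map_sub, toLaurent_X, toLaurent_C]
    rfl
  have hf0 : f ≠ 0 := by
    intro h
    rw [h, map_zero] at hf
    have hu := LaurentPolynomial.isUnit_T (R := ℚ) N
    exact h0 ((hu.mul_left_eq_zero).1 hf.symm)
  have hdiv : ∀ i, (X - C (c i)) ^ e i ∣ f := by
    intro i
    obtain ⟨u, hu⟩ := hd i
    obtain ⟨M, w, hw⟩ := LaurentPolynomial.exists_T_pow u
    have h1 : f * X ^ M = (X - C (c i)) ^ e i * (w * X ^ N) := by
      apply Polynomial.toLaurent_injective
      rw [map_mul, map_mul, map_mul, hf, hw, toLaurent_X_pow, toLaurent_X_pow, hu, hX, map_pow]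
      ring
    have h2 : (X - C (c i)) ^ e i ∣ f * X ^ M := ⟨_, h1⟩
    have h3 : IsCoprime ((X - C (c i)) ^ e i) (X ^ M : ℚ[X]) := by
      apply IsCoprime.pow
      have := isCoprime_X_sub_C_of_isUnit_sub (a := c i) (b := (0 : ℚ))
        (by rw [sub_zero]; exact (hpos i).ne'.isUnit)
      simpa using this
    exact h3.dvd_of_dvd_mul_right h2
  have h4 := descartes hf0 hc hpos e hdiv
  have h5 : f.support.card = φ.coeff.support.card := by
    have h6 : f.support.card = (toLaurent f).coeff.support.card := by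
      rw [LaurentPolynomial.support_coeff_toLaurent, Finset.card_map]
    rw [h6, hf]
    symm
    apply Finset.card_bij (fun a _ => a + (N : ℤ))
    · intro a ha
      rw [Finsupp.mem_support_iff] at ha ⊢
      rw [LaurentPolynomial.T, AddMonoidAlgebra.coeff_mul_single_apply]
      simpa using ha
    · intro a _ b _ hab
      exact add_right_cancel hab
    · intro b hb
      rw [Finsupp.mem_support_iff, LaurentPolynomial.T,
        AddMonoidAlgebra.coeff_mul_single_apply] at hb
      refine ⟨b - N, ?_, by ring⟩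
      rw [Finsupp.mem_support_iff]
      simpa [sub_eq_add_neg] using hb
  omega

/-- a column as a polynomial -/
noncomputable def colp (h : ℤ) : AddMonoidAlgebra ℚ (ℤ × ℕ) →+ ℚ[X] :=
  (Finsupp.liftAddHom (fun p : ℤ × ℕ =>
    if p.1 = h then ((monomial p.2 : ℚ →ₗ[ℚ] ℚ[X]) : ℚ →+ ℚ[X]) else 0)).comp
    AddMonoidAlgebra.coeffAddEquiv.toAddMonoidHom

theorem colp_single (h : ℤ) (p : ℤ × ℕ) (u : ℚ) :
    colp h (AddMonoidAlgebra.single p u) = if p.1 = h then monomial p.2 u else 0 := by
  unfold colp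
  by_cases hp : p.1 = h
  · simp [hp]
  · simp [hp]

theorem colp_coeff (h : ℤ) (g : AddMonoidAlgebra ℚ (ℤ × ℕ)) (j : ℕ) :
    (colp h g).coeff j = g.coeff (h, j) := by
  induction g using AddMonoidAlgebra.induction_linear with
  | zero => simp
  | add P Q hP hQ => rw [map_add, Polynomial.coeff_add, hP, hQ, AddMonoidAlgebra.coeff_add]; rfl
  | single p u =>
    rw [colp_single, AddMonoidAlgebra.coeff_single, Finsupp.single_apply]
    by_cases hp : p.1 = h
    · rw [if_pos hp, Polynomial.coeff_monomial]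
      by_cases hj : p.2 = j
      · rw [if_pos hj, if_pos (Prod.ext hp hj)]
      · rw [if_neg hj, if_neg]
        intro h2
        exact hj (congrArg Prod.snd h2)
    · rw [if_neg hp, Polynomial.coeff_zero, if_neg]
      intro h2
      exact hp (congrArg Prod.fst h2)

theorem Dr_coeff (r : ℕ) (h : ℤ) (g : AddMonoidAlgebra ℚ (ℤ × ℕ)) :
    (Dr r g).coeff h = (taylor 1 (colp h g)).coeff r := by
  induction g using AddMonoidAlgebra.induction_linear with
  | zero => simp
  | add P Q hP hQ =>
    rw [map_add, map_add, map_add, Polynomial.coeff_add, ← hP, ← hQ, AddMonoidAlgebra.coeff_add]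
    rfl
  | single p u =>
    rw [colp_single, Dr_single, AddMonoidAlgebra.coeff_single, Finsupp.single_apply]
    by_cases hp : p.1 = h
    · rw [if_pos hp, if_pos hp, taylor_monomial, coeff_C_mul, map_one, coeff_X_add_one_pow]
    · rw [if_neg hp, if_neg hp]
      simp

theorem colp_span {G : ℚ[X]} {r : ℕ} (hG : G ≠ 0) (h : ∀ r' < r, (taylor 1 G).coeff r' = 0) :
    G.natTrailingDegree + r ≤ G.natDegree := by
  have h1 : (X - C 1) ^ r ∣ G := by
    rw [X_sub_C_pow_dvd_iff, X_pow_dvd_iff]
    intro d hd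
    exact h d hd
  have h2 : (X : ℚ[X]) ^ G.natTrailingDegree ∣ G := by
    rw [X_pow_dvd_iff]
    intro d hd
    exact coeff_eq_zero_of_lt_natTrailingDegree hd
  obtain ⟨P, hP⟩ := h2
  have hP0 : P ≠ 0 := by
    intro h0
    rw [h0, mul_zero] at hP
    exact hG hP
  have hcop : IsCoprime ((X - C 1) ^ r) (X ^ G.natTrailingDegree : ℚ[X]) := by
    apply IsCoprime.pow
    have := isCoprime_X_sub_C_of_isUnit_sub (a := (1 : ℚ)) (b := (0 : ℚ))
      (by rw [sub_zero]; exact isUnit_one)
    simpa using this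
  have h3 : (X - C 1) ^ r ∣ P := by
    have h4 : (X - C 1) ^ r ∣ X ^ G.natTrailingDegree * P := by rw [← hP]; exact h1
    exact hcop.dvd_of_dvd_mul_left h4
  have h5 : r ≤ P.natDegree := by
    have := natDegree_le_of_dvd h3 hP0
    rwa [natDegree_pow, natDegree_X_sub_C, mul_one] at this
  have h6 : G.natDegree = G.natTrailingDegree + P.natDegree := by
    conv_lhs => rw [hP]
    rw [natDegree_mul (pow_ne_zero _ X_ne_zero) hP0, natDegree_X_pow]
  omega

/-- **The column lemma.** -/
theorem columns {n : ℕ} {g : AddMonoidAlgebra ℚ (ℤ × ℕ)} (hg : g ≠ 0) {c : Fin n → ℚ}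
    (hc : Function.Injective c) (hpos : ∀ i, 0 < c i) (m : Fin n → ℕ)
    (hdiv : ∀ i r, (AddMonoidAlgebra.single (1 : ℤ) (1 : ℚ) -
      AddMonoidAlgebra.single (0 : ℤ) (c i)) ^ (m i - r) ∣ Dr r g) :
    ∃ (r : ℕ) (S : Finset ℤ), ∑ i, (m i - r) + 1 ≤ S.card ∧
      ∀ h ∈ S, ∃ j1 j2 : ℕ, j1 + r ≤ j2 ∧ g.coeff (h, j1) ≠ 0 ∧ g.coeff (h, j2) ≠ 0 := by
  classical
  have hex : ∃ r, Dr r g ≠ 0 := by
    by_contra hcon
    push Not at hcon
    apply hg
    apply AddMonoidAlgebra.coeff_eq_zero.1
    ext p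
    have h1 : taylor 1 (colp p.1 g) = 0 := by
      ext r
      rw [← Dr_coeff, hcon r]
      rfl
    have h2 : colp p.1 g = 0 := by
      apply taylor_injective (1 : ℚ)
      rw [h1, map_zero]
    have h3 := colp_coeff p.1 g p.2
    rw [h2] at h3
    exact h3.symm
  obtain ⟨r, hr, hmin⟩ : ∃ r, Dr r g ≠ 0 ∧ ∀ r' < r, Dr r' g = 0 := by
    refine ⟨Nat.find hex, Nat.find_spec hex, fun r' hr' => ?_⟩
    have := Nat.find_min hex hr'
    push Not at this
    exact this
  refine ⟨r, (Dr r g).coeff.support, laurent_desc hr hc hpos _ (fun i => hdiv i r), ?_⟩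
  intro h hh
  rw [Finsupp.mem_support_iff, Dr_coeff] at hh
  have hG0 : colp h g ≠ 0 := by
    intro h0
    rw [h0, map_zero] at hh
    exact hh rfl
  have hlow : ∀ r' < r, (taylor 1 (colp h g)).coeff r' = 0 := by
    intro r' hr'
    rw [← Dr_coeff, hmin r' hr']
    rfl
  refine ⟨_, _, colp_span hG0 hlow, ?_, ?_⟩
  · rw [← colp_coeff]
    exact fun h0 => hG0 (trailingCoeff_eq_zero.1 h0)
  · rw [← colp_coeff]
    exact fun h0 => hG0 (leadingCoeff_eq_zero.1 h0)

end Pool.Agent.Y206
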