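import Pool.Agent.Y206.Col

set_option autoImplicit false

/-!
# The criterion
-/

namespace Pool.Agent.Y206

open HahnSeries

/-- vanishing to order `m` at the point with homogeneous coordinates `v` -/
def MultAt {K : Type*} [Field K] (v : Fin 3 → K) (F : MvPolynomial (Fin 3) K) (m : ℕ) : Prop :=
  ∀ s : Fin 3 →₀ ℕ, (∑ j, s j) < m → MvPolynomial.coeff s
    (MvPolynomial.aeval (fun j : Fin 3 =>
      (MvPolynomial.X j + MvPolynomial.C (v j) : MvPolynomial (Fin 3) K)) F) = 0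

/-- the points over a field -/
def ptK {K : Type*} [Field K] (k : ℕ) (a s c : K) : Fin 3 → K :=
  ![a * c⁻¹ * (1 + (s * c) ^ 3 + (a * c⁻¹) ^ 3 * (1 + 3 * (s * c) ^ 3) - a ^ 3 * s ^ 4 * (c⁻¹) ^ k),
    1, s * c]

theorem ptK_map {K L : Type*} [Field K] [Field L] (φ : K →+* L) (k : ℕ) (a s c : K) (j : Fin 3) :
    φ (ptK k a s c j) = ptK k (φ a) (φ s) (φ c) j := by
  unfold ptK
  fin_cases j
  · simp [map_ofNat]
  · exact map_one φ
  · exact map_mul φ s c

theorem vv_eq (β : ℝ) (k : ℕ) (q : ℚ) :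
    vv β k q = ptK k (HahnSeries.single (1 - β) (1 : ℚ) : Om) (HahnSeries.single β (1 : ℚ))
      (HahnSeries.C q) := by
  have h : (HahnSeries.single (1 - β) (1 : ℚ) : Om) ^ 3 * (HahnSeries.single β (1 : ℚ)) ^ 4 =
      HahnSeries.single (3 + β) (1 : ℚ) := by
    have e : 3 • (1 - β) + 4 • β = 3 + β := by
      simp only [nsmul_eq_mul]
      push_cast
      ring
    rw [HahnSeries.single_pow, HahnSeries.single_pow, HahnSeries.single_mul_single, e]
    simp only [one_pow, mul_one]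
  unfold vv ptK
  rw [h]

theorem multAt_map {K L : Type*} [Field K] [Field L] (φ : K →+* L) {v : Fin 3 → K}
    {F : MvPolynomial (Fin 3) K} {m : ℕ} (h : MultAt v F m) :
    MultAt (fun j => φ (v j)) (MvPolynomial.map φ F) m := by
  intro s hs
  have h1 : (MvPolynomial.aeval (fun j : Fin 3 =>
      (MvPolynomial.X j + MvPolynomial.C (φ (v j)) : MvPolynomial (Fin 3) L)))
      (MvPolynomial.map φ F) = MvPolynomial.map φ (MvPolynomial.aeval (fun j : Fin 3 =>
      (MvPolynomial.X j + MvPolynomial.C (v j) : MvPolynomial (Fin 3) K)) F) := by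
    have h2 : (MvPolynomial.aeval (fun j : Fin 3 =>
      (MvPolynomial.X j + MvPolynomial.C (φ (v j)) : MvPolynomial (Fin 3) L))).toRingHom.comp
      (MvPolynomial.map φ) = (MvPolynomial.map φ).comp (MvPolynomial.aeval (fun j : Fin 3 =>
      (MvPolynomial.X j + MvPolynomial.C (v j) : MvPolynomial (Fin 3) K))).toRingHom := by
      apply MvPolynomial.ringHom_ext
      · intro r; simp
      · intro j; simp
    exact congrArg (fun g : MvPolynomial (Fin 3) K →+* MvPolynomial (Fin 3) L => g F) h2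
  rw [h1, MvPolynomial.coeff_map, h s hs, map_zero]

/-- descent of curves to a subfield containing the coordinates -/
theorem descent {k₀ K : Type*} [Field k₀] [Field K] [Algebra k₀ K] {n : ℕ}
    (v : Fin n → Fin 3 → k₀) (m : Fin n → ℕ) {F : MvPolynomial (Fin 3) K} {d : ℕ}
    (hF : F.IsHomogeneous d) (hF0 : F ≠ 0)
    (h : ∀ i, MultAt (fun j => algebraMap k₀ K (v i j)) F (m i)) :
    ∃ F₀ : MvPolynomial (Fin 3) k₀, F₀ ≠ 0 ∧ F₀.IsHomogeneous d ∧ ∀ i, MultAt (v i) F₀ (m i) := by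
  classical
  obtain ⟨s₀, hs₀⟩ := MvPolynomial.support_nonempty.2 hF0
  have hs₀' := MvPolynomial.mem_support_iff.1 hs₀
  obtain ⟨l, hl⟩ : ∃ l : Module.Dual k₀ K, l (MvPolynomial.coeff s₀ F) ≠ 0 := by
    by_contra hcon
    push Not at hcon
    exact hs₀' ((Module.forall_dual_apply_eq_zero_iff k₀ _).1 hcon)
  obtain ⟨F₀, hF₀⟩ : ∃ F₀ : MvPolynomial (Fin 3) k₀, F₀ = ∑ s ∈ F.support,
    MvPolynomial.monomial s (l (MvPolynomial.coeff s F)) := ⟨_, rfl⟩
  have hcoeff : ∀ s, MvPolynomial.coeff s F₀ = l (MvPolynomial.coeff s F) := by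
    intro s
    rw [hF₀, MvPolynomial.coeff_sum]
    simp only [MvPolynomial.coeff_monomial]
    rw [Finset.sum_ite_eq' F.support s]
    by_cases hs : s ∈ F.support
    · rw [if_pos hs]
    · rw [if_neg hs, MvPolynomial.notMem_support_iff.1 hs, map_zero]
  refine ⟨F₀, ?_, ?_, ?_⟩
  · intro h0
    apply hl
    rw [← hcoeff, h0, MvPolynomial.coeff_zero]
  · intro s hs
    apply hF
    intro h0
    rw [hcoeff, h0, map_zero] at hs
    exact hs rfl
  · intro i s hs
    have h1 := h i s hs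
    have h2 : ∀ t : Fin 3 →₀ ℕ, (∏ j, (MvPolynomial.X j + MvPolynomial.C (algebraMap k₀ K (v i j)) :
        MvPolynomial (Fin 3) K) ^ t j) = MvPolynomial.map (algebraMap k₀ K)
        (∏ j, (MvPolynomial.X j + MvPolynomial.C (v i j) : MvPolynomial (Fin 3) k₀) ^ t j) := by
      intro t
      simp [map_prod]
    rw [MvPolynomial.aeval_def, MvPolynomial.eval₂_eq', MvPolynomial.coeff_sum] at h1
    rw [MvPolynomial.aeval_def, hF₀, MvPolynomial.eval₂_sum, MvPolynomial.coeff_sum]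
    have h3 : l (∑ t ∈ F.support, MvPolynomial.coeff s
        ((algebraMap K (MvPolynomial (Fin 3) K)) (MvPolynomial.coeff t F) *
          ∏ j, (MvPolynomial.X j + MvPolynomial.C (algebraMap k₀ K (v i j))) ^ t j)) = 0 := by
      rw [h1, map_zero]
    rw [map_sum] at h3
    rw [← h3]
    refine Finset.sum_congr rfl fun t _ => ?_
    rw [h2 t, MvPolynomial.eval₂_monomial, MvPolynomial.algebraMap_eq, MvPolynomial.algebraMap_eq,
      MvPolynomial.coeff_C_mul, MvPolynomial.coeff_C_mul, MvPolynomial.coeff_map, mul_comm,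
      mul_comm (MvPolynomial.coeff t F), ← Algebra.smul_def, map_smul, smul_eq_mul]
    rw [Finsupp.prod_fintype _ _ (by simp)]

theorem crit_Om {β : ℝ} (hβ0 : 0 < β) (hβ : β < 3 / 7) (hirr : Irrational β) (k : ℕ) {n : ℕ}
    {c : Fin n → ℚ} (hc : Function.Injective c) (hpos : ∀ i, 0 < c i) (m : Fin n → ℕ)
    {Q : MvPolynomial (Fin 3) Om} {d : ℕ} (hQ : Q.IsHomogeneous d) (hQ0 : Q ≠ 0)
    (hm : ∀ i, MultAt (vv β k (c i)) Q (m i)) :
    ∃ (r : ℕ) (S : Finset ℤ), ∑ i, (m i - r) + 1 ≤ S.card ∧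
      ∀ h ∈ S, ∃ j1 j2 : ℕ, j1 + r ≤ j2 ∧
        -(1 + β) * (d - 3 * (j1 : ℝ)) ≤ (h : ℝ) + k * j1 ∧
        (h : ℝ) + k * j2 ≤ (2 - β) * (d - 3 * (j2 : ℝ)) := by
  classical
  have hθ : IndT 1 β := fun h h' j j' e => irr_ind hirr h h' j j' (by linarith)
  have hG := GG_ne hθ β k hQ hQ0
  have hne : (GG β k Q).coeff.support.Nonempty := by
    rw [Finsupp.support_nonempty_iff]
    exact fun h => hG (AddMonoidAlgebra.coeff_eq_zero.1 h)
  obtain ⟨p, hp, hmin⟩ := Finset.exists_min_image (GG β k Q).coeff.support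
    (fun p => ((GG β k Q).coeff p).order) hne
  obtain ⟨c0, hc0⟩ : ∃ c0, c0 = ((GG β k Q).coeff p).order := ⟨_, rfl⟩
  have hleast : ∀ q, (ex c0 (GG β k Q)).coeff q ≠ 0 → IsLeast' (GG β k Q) q := by
    intro q hq
    rw [ex_coeff] at hq
    have hq0 : (GG β k Q).coeff q ≠ 0 := by
      intro h
      rw [h] at hq
      exact hq rfl
    refine ⟨hq0, fun q' hq' => ?_⟩
    have h1 := HahnSeries.order_le_of_coeff_ne_zero hq
    have h2 := hmin q' (Finsupp.mem_support_iff.2 hq')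
    rw [hc0] at h1
    exact h1.trans h2
  have hg0 : ex c0 (GG β k Q) ≠ 0 := by
    intro h
    have h1 : (ex c0 (GG β k Q)).coeff p = 0 := by rw [h]; rfl
    rw [ex_coeff, hc0] at h1
    exact (Finsupp.mem_support_iff.1 hp) (HahnSeries.coeff_order_eq_zero.1 h1)
  obtain ⟨r, S, h1, h2⟩ := columns hg0 hc hpos m
    (fun i r => lead_dvd (hpos i).ne' (hm i) c0 r)
  refine ⟨r, S, h1, fun h hh => ?_⟩
  obtain ⟨j1, j2, h3, h4, h5⟩ := h2 h hh
  refine ⟨j1, j2, h3, ?_, ?_⟩
  · exact (least_window hβ0 hβ hirr k hQ hQ0 (hleast _ h4)).1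
  · exact (least_window hβ0 hβ hirr k hQ hQ0 (hleast _ h5)).2

/-- independence of the two parameters in the Hahn series field -/
theorem aeval_inj {β : ℝ} (hirr : Irrational β) : Function.Injective
    (MvPolynomial.aeval (R := ℚ) ![(HahnSeries.single (1 - β) (1 : ℚ) : Om),
      HahnSeries.single β (1 : ℚ)]) := by
  classical
  rw [injective_iff_map_eq_zero]
  intro P hP
  by_contra hP0
  obtain ⟨s, hs⟩ := MvPolynomial.support_nonempty.2 hP0
  have hterm : ∀ t : Fin 2 →₀ ℕ, algebraMap ℚ Om (MvPolynomial.coeff t P) *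
      ∏ j, (![(HahnSeries.single (1 - β) (1 : ℚ) : Om), HahnSeries.single β (1 : ℚ)] :
        Fin 2 → Om) j ^ t j =
      HahnSeries.single (t 0 * (1 - β) + t 1 * β) (MvPolynomial.coeff t P) := by
    intro t
    rw [Fin.prod_univ_two]
    simp only [Matrix.cons_val_zero, Matrix.cons_val_one]
    rw [HahnSeries.single_pow, HahnSeries.single_pow, HahnSeries.single_mul_single,
      eq_ratCast (algebraMap ℚ Om), ← HahnSeries.single_zero_ratCast,
      HahnSeries.single_mul_single]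
    simp [nsmul_eq_mul]
  rw [MvPolynomial.aeval_def, MvPolynomial.eval₂_eq', Finset.sum_congr rfl fun t _ => hterm t] at hP
  have h1 := congrArg (fun x : Om => x.coeff (s 0 * (1 - β) + s 1 * β)) hP
  simp only [HahnSeries.coeff_sum, HahnSeries.coeff_zero] at h1
  rw [Finset.sum_eq_single s] at h1
  · rw [HahnSeries.coeff_single_same] at h1
    exact (MvPolynomial.mem_support_iff.1 hs) h1
  · intro t _ hts
    apply HahnSeries.coeff_single_of_ne
    intro h2
    apply hts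
    have h4 : (((t 0 : ℤ) : ℝ) - (s 0 : ℤ)) + (((t 1 : ℤ) - (t 0 : ℤ) - (s 1 : ℤ) + (s 0 : ℤ) : ℤ) : ℝ) * β
        = 0 := by
      push_cast
      linarith
    have h5 : (t 1 : ℤ) - (t 0 : ℤ) - (s 1 : ℤ) + (s 0 : ℤ) = 0 := by
      by_contra hne
      have hne' : (((t 1 : ℤ) - (t 0 : ℤ) - (s 1 : ℤ) + (s 0 : ℤ) : ℤ) : ℝ) ≠ 0 := by
        exact_mod_cast hne
      apply hirr
      refine ⟨((s 0 : ℚ) - t 0) / (((t 1 : ℤ) - (t 0 : ℤ) - (s 1 : ℤ) + (s 0 : ℤ) : ℤ) : ℚ), ?_⟩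
      rw [Rat.cast_div, div_eq_iff (by exact_mod_cast hne)]
      push_cast at h4 ⊢
      linarith
    rw [h5] at h4
    have h6 : (t 0 : ℤ) = s 0 := by
      have : ((t 0 : ℤ) : ℝ) = (s 0 : ℤ) := by
        push_cast at h4 ⊢
        linarith
      exact_mod_cast this
    ext i
    fin_cases i
    · change t 0 = s 0
      exact_mod_cast h6
    · change t 1 = s 1
      have : (t 1 : ℤ) = s 1 := by linarith
      exact_mod_cast this
  · intro h2
    exact absurd hs h2

/-- **The criterion** over any field of characteristic zero. -/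
theorem crit {K : Type*} [Field K] [CharZero K] {a s : K} (has : AlgebraicIndependent ℚ ![a, s])
    {β : ℝ} (hβ0 : 0 < β) (hβ : β < 3 / 7) (hirr : Irrational β) (k : ℕ) {n : ℕ}
    {c : Fin n → ℚ} (hc : Function.Injective c) (hpos : ∀ i, 0 < c i) (m : Fin n → ℕ)
    {F : MvPolynomial (Fin 3) K} {d : ℕ} (hF : F.IsHomogeneous d) (hF0 : F ≠ 0)
    (hm : ∀ i, MultAt (ptK k a s (c i : K)) F (m i)) :
    ∃ (r : ℕ) (S : Finset ℤ), ∑ i, (m i - r) + 1 ≤ S.card ∧
      ∀ h ∈ S, ∃ j1 j2 : ℕ, j1 + r ≤ j2 ∧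
        -(1 + β) * (d - 3 * (j1 : ℝ)) ≤ (h : ℝ) + k * j1 ∧
        (h : ℝ) + k * j2 ≤ (2 - β) * (d - 3 * (j2 : ℝ)) := by
  have hinj : Function.Injective ((MvPolynomial.aeval (R := ℚ) ![a, s]) :
      MvPolynomial (Fin 2) ℚ →+* K) := has
  have hinj' : Function.Injective ((MvPolynomial.aeval (R := ℚ)
      ![(HahnSeries.single (1 - β) (1 : ℚ) : Om), HahnSeries.single β (1 : ℚ)]) :
      MvPolynomial (Fin 2) ℚ →+* Om) := aeval_inj hirr
  obtain ⟨φ, hφ⟩ : ∃ φ : FractionRing (MvPolynomial (Fin 2) ℚ) →+* K,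
      φ = IsFractionRing.lift hinj := ⟨_, rfl⟩
  obtain ⟨ψ, hψ⟩ : ∃ ψ : FractionRing (MvPolynomial (Fin 2) ℚ) →+* Om,
      ψ = IsFractionRing.lift hinj' := ⟨_, rfl⟩
  obtain ⟨A, hA⟩ : ∃ A : FractionRing (MvPolynomial (Fin 2) ℚ),
      A = algebraMap (MvPolynomial (Fin 2) ℚ) _ (MvPolynomial.X 0) := ⟨_, rfl⟩
  obtain ⟨B, hB⟩ : ∃ B : FractionRing (MvPolynomial (Fin 2) ℚ),
      B = algebraMap (MvPolynomial (Fin 2) ℚ) _ (MvPolynomial.X 1) := ⟨_, rfl⟩
  have h1 : φ A = a := by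
    rw [hφ, hA, IsFractionRing.lift_algebraMap]
    simp
  have h2 : φ B = s := by
    rw [hφ, hB, IsFractionRing.lift_algebraMap]
    simp
  have h3 : ψ A = HahnSeries.single (1 - β) (1 : ℚ) := by
    rw [hψ, hA, IsFractionRing.lift_algebraMap]
    simp
  have h4 : ψ B = HahnSeries.single β (1 : ℚ) := by
    rw [hψ, hB, IsFractionRing.lift_algebraMap]
    simp
  letI : Algebra (FractionRing (MvPolynomial (Fin 2) ℚ)) K := φ.toAlgebra
  have hm' : ∀ i, MultAt (fun j => algebraMap (FractionRing (MvPolynomial (Fin 2) ℚ)) K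
      (ptK k A B ((c i : ℚ) : FractionRing (MvPolynomial (Fin 2) ℚ)) j)) F (m i) := by
    intro i
    have e : (fun j => algebraMap (FractionRing (MvPolynomial (Fin 2) ℚ)) K
      (ptK k A B ((c i : ℚ) : FractionRing (MvPolynomial (Fin 2) ℚ)) j)) =
      ptK k a s (c i : K) := by
      funext j
      change φ _ = _
      rw [ptK_map, h1, h2, map_ratCast]
    rw [e]
    exact hm i
  obtain ⟨F₀, g1, g2, g3⟩ := descent _ m hF hF0 hm'
  refine crit_Om hβ0 hβ hirr k hc hpos m (Q := MvPolynomial.map ψ F₀) (g2.map ψ) ?_ ?_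
  · intro h0
    apply g1
    apply MvPolynomial.map_injective ψ ψ.injective
    rw [h0, map_zero]
  · intro i
    have g4 := multAt_map ψ (g3 i)
    have e : (fun j => ψ (ptK k A B ((c i : ℚ) : FractionRing (MvPolynomial (Fin 2) ℚ)) j)) =
        vv β k (c i) := by
      rw [vv_eq]
      funext j
      rw [ptK_map, h3, h4, map_ratCast]
      congr 1
    rw [e] at g4
    exact g4

end Pool.Agent.Y206
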