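import Pool.Agent.Y206.Crit

set_option autoImplicit false

/-!
# Nagata's inequality at explicit points
-/

namespace Pool.Agent.Y206

theorem card_le_of_mem {S : Finset ℤ} {A B : ℝ} (h : ∀ x ∈ S, A ≤ (x : ℝ) ∧ (x : ℝ) ≤ B)
    (hne : S.Nonempty) : (S.card : ℝ) ≤ B - A + 1 := by
  have hsub : S ⊆ Finset.Icc ⌈A⌉ ⌊B⌋ := by
    intro x hx
    rw [Finset.mem_Icc]
    exact ⟨Int.ceil_le.2 (h x hx).1, Int.le_floor.2 (h x hx).2⟩
  have h1 := Finset.card_le_card hsub
  rw [Int.card_Icc] at h1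
  obtain ⟨x, hx⟩ := hne
  have h2 := hsub hx
  rw [Finset.mem_Icc] at h2
  have h3 : (S.card : ℤ) ≤ ⌊B⌋ + 1 - ⌈A⌉ := by omega
  have h4 : (S.card : ℝ) ≤ (⌊B⌋ : ℝ) + 1 - (⌈A⌉ : ℝ) := by exact_mod_cast h3
  have h5 := Int.floor_le B
  have h6 := Int.le_ceil A
  linarith

theorem sum_sub_ge {n : ℕ} (m : Fin n → ℕ) (r : ℕ) :
    (∑ i, (m i : ℝ)) - n * r ≤ ((∑ i, (m i - r) : ℕ) : ℝ) := by
  push_cast
  have h : ∀ i ∈ (Finset.univ : Finset (Fin n)), (m i : ℝ) - r ≤ ((m i - r : ℕ) : ℝ) := by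
    intro i _
    rcases le_total r (m i) with h | h
    · rw [Nat.cast_sub h]
    · rw [Nat.sub_eq_zero_of_le h]
      have : (m i : ℝ) ≤ r := by exact_mod_cast h
      push_cast
      linarith
  have h1 := Finset.sum_le_sum h
  rw [Finset.sum_sub_distrib, Finset.sum_const, Finset.card_univ, Fintype.card_fin,
    nsmul_eq_mul] at h1
  exact h1

/-- the real form of the criterion -/
theorem crit_real {K : Type*} [Field K] [CharZero K] {a s : K}
    (has : AlgebraicIndependent ℚ ![a, s]) {β : ℝ} (hβ0 : 0 < β) (hβ : β < 3 / 7)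
    (hirr : Irrational β) (k : ℕ) {κ : ℝ} (hκ : κ = 6 + k - 3 * β) (hκ9 : 9 ≤ κ) {n : ℕ}
    {c : Fin n → ℚ} (hc : Function.Injective c) (hpos : ∀ i, 0 < c i) (m : Fin n → ℕ)
    {F : MvPolynomial (Fin 3) K} {d : ℕ} (hF : F.IsHomogeneous d) (hF0 : F ≠ 0)
    (hm : ∀ i, MultAt (ptK k a s (c i : K)) F (m i)) :
    ∃ r : ℕ, (∑ i, (m i : ℝ)) - n * r ≤ κ / 9 * (3 * d - κ * r) := by
  obtain ⟨r, S, h1, h2⟩ := crit has hβ0 hβ hirr k hc hpos m hF hF0 hm
  refine ⟨r, ?_⟩
  have hS : S.Nonempty := by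
    rw [← Finset.card_pos]; omega
  have h3 : ∀ x ∈ S, -(1 + β) * d - (κ - 9) * ((3 * d - κ * r) / 9) ≤ (x : ℝ) ∧
      (x : ℝ) ≤ (2 - β) * d - κ * r := by
    intro x hx
    obtain ⟨j1, j2, h4, h5, h6⟩ := h2 x hx
    have h4' : (j1 : ℝ) + r ≤ j2 := by exact_mod_cast h4
    have hj1 : (0 : ℝ) ≤ j1 := Nat.cast_nonneg _
    have h7 : (x : ℝ) ≤ (2 - β) * d - κ * (j1 + r) := by
      have : κ * (j1 + r) ≤ κ * j2 := mul_le_mul_of_nonneg_left h4' (by linarith)
      rw [hκ] at this ⊢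
      linarith
    have h8 : -(1 + β) * d - (κ - 9) * j1 ≤ (x : ℝ) := by
      rw [hκ]; linarith
    have h9 : (j1 : ℝ) ≤ (3 * d - κ * r) / 9 := by
      rw [le_div_iff₀ (by norm_num)]
      linarith
    constructor
    · have := mul_le_mul_of_nonneg_left h9 (show (0 : ℝ) ≤ κ - 9 by linarith)
      linarith
    · have : 0 ≤ κ * j1 := by positivity
      linarith
  have h10 := card_le_of_mem h3 hS
  have h11 := sum_sub_ge m r
  have h12 : ((∑ i, (m i - r) : ℕ) : ℝ) + 1 ≤ S.card := by exact_mod_cast h1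
  have h13 : (2 - β) * d - κ * r - (-(1 + β) * d - (κ - 9) * ((3 * d - κ * r) / 9)) =
      κ / 9 * (3 * d - κ * r) := by ring
  linarith

theorem nonsquare {K : Type*} [Field K] [CharZero K] {a s : K}
    (has : AlgebraicIndependent ℚ ![a, s]) {n : ℕ} (hn : 9 < n)
    (hsq : Irrational (√(n : ℝ)))
    {c : Fin n → ℚ} (hc : Function.Injective c) (hpos : ∀ i, 0 < c i) (m : Fin n → ℕ)
    {F : MvPolynomial (Fin 3) K} {d : ℕ} (hd : 0 < d) (hF : F.IsHomogeneous d) (hF0 : F ≠ 0)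
    (hm : ∀ i, MultAt (ptK (⌊3 * √(n : ℝ)⌋₊ - 5) a s (c i : K)) F (m i)) :
    ∑ i, (m i : ℝ) < d * √(n : ℝ) := by
  obtain ⟨q, hq⟩ : ∃ q, q = √(n : ℝ) := ⟨_, rfl⟩
  obtain ⟨N, hN⟩ : ∃ N, N = ⌊3 * √(n : ℝ)⌋₊ := ⟨_, rfl⟩
  rw [← hN] at hm
  have hqq : q * q = n := by rw [hq]; exact Real.mul_self_sqrt (Nat.cast_nonneg n)
  have hq0 : 0 ≤ q := by rw [hq]; exact Real.sqrt_nonneg _
  have hn' : (9 : ℝ) < n := by exact_mod_cast hn
  have hq3 : 3 < q := by nlinarith
  have h3q : 0 ≤ 3 * √(n : ℝ) := by positivity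
  have hN1 : (N : ℝ) ≤ 3 * q := by rw [hN, hq]; exact Nat.floor_le h3q
  have hN2 : 3 * q < N + 1 := by rw [hN, hq]; exact Nat.lt_floor_add_one _
  have hN9 : 9 ≤ N := by
    rw [hN]
    apply Nat.le_floor
    push_cast
    rw [← hq]; linarith
  have hk : ((N - 5 : ℕ) : ℝ) = N - 5 := by
    rw [Nat.cast_sub (by omega)]; norm_num
  rw [← hq] at hsq
  have hirr3 : Irrational (((N : ℝ) + 1 - 3 * q) / 3) := by
    have h1 : Irrational (3 * q) := by
      have := hsq.natCast_mul (m := 3) (by norm_num)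
      simpa using this
    have h2 : Irrational (((N + 1 : ℕ) : ℝ) - 3 * q) := h1.natCast_sub _
    have h3 := h2.div_natCast (m := 3) (by norm_num)
    push_cast at h3
    exact h3
  have hne : (N : ℝ) ≠ 3 * q := by
    intro h
    have h1 : Irrational (3 * q) := by
      have := hsq.natCast_mul (m := 3) (by norm_num)
      simpa using this
    rw [← h] at h1
    exact h1 ⟨(N : ℚ), by push_cast; rfl⟩
  obtain ⟨r, hr⟩ := crit_real has (β := ((N : ℝ) + 1 - 3 * q) / 3) (by linarith) (by linarith)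
    hirr3 (N - 5) (κ := 3 * q) (by rw [hk]; ring) (by linarith) hc hpos m hF hF0 hm
  have h1 : 3 * q / 9 * (3 * d - 3 * q * r) = q * d - q * q * r := by ring
  rw [h1, hqq] at hr
  have hle : ∑ i, (m i : ℝ) ≤ d * q := by linarith
  rw [← hq]
  refine lt_of_le_of_ne hle fun heq => ?_
  have h2 : Irrational ((d : ℝ) * q) := hsq.natCast_mul hd.ne'
  apply h2
  refine ⟨((∑ i, m i : ℕ) : ℚ), ?_⟩
  push_cast
  exact heq

theorem square {K : Type*} [Field K] [CharZero K] {a s : K}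
    (has : AlgebraicIndependent ℚ ![a, s]) {n R : ℕ} (hR : 4 ≤ R) (hn : n = R * R)
    {c : Fin n → ℚ} (hc : Function.Injective c) (hpos : ∀ i, 0 < c i) (m : Fin n → ℕ)
    {F : MvPolynomial (Fin 3) K} {d : ℕ} (hd : 0 < d) (hF : F.IsHomogeneous d) (hF0 : F ≠ 0)
    (hm : ∀ i, MultAt (ptK (3 * R - 5) a s (c i : K)) F (m i)) :
    ∑ i, (m i : ℝ) < d * R := by
  by_contra hcon
  rw [not_lt] at hcon
  have hR' : (4 : ℝ) ≤ R := by exact_mod_cast hR
  have hd' : (1 : ℝ) ≤ d := by exact_mod_cast hd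
  obtain ⟨ε, hε⟩ : ∃ ε : ℝ, ε = √2 / ((4 * d : ℕ) : ℝ) := ⟨_, rfl⟩
  have h4d : (0 : ℝ) < ((4 * d : ℕ) : ℝ) := by
    have : 0 < 4 * d := by omega
    exact_mod_cast this
  have hs2 : √2 < (2 : ℝ) := by
    rw [Real.sqrt_lt' (by norm_num)]; norm_num
  have hs0 : 0 < √(2 : ℝ) := by positivity
  have hε0 : 0 < ε := by rw [hε]; positivity
  have hεd : ε * d < 1 / 2 := by
    rw [hε, div_mul_eq_mul_div, div_lt_iff₀ h4d]
    push_cast
    nlinarith
  have hε1 : ε < 1 / 2 := by nlinarith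
  have hirr : Irrational ((1 - ε) / 3) := by
    have h1 : Irrational ε := by
      rw [hε]
      exact irrational_sqrt_two.div_natCast (by omega)
    have h2 := (h1.natCast_sub 1).div_natCast (m := 3) (by norm_num)
    push_cast at h2
    exact h2
  obtain ⟨r, S, h1, h2⟩ := crit has (β := (1 - ε) / 3) (by linarith) (by linarith) hirr
    (3 * R - 5) hc hpos m hF hF0 hm
  have hk : ((3 * R - 5 : ℕ) : ℝ) = 3 * R - 5 := by
    rw [Nat.cast_sub (by omega)]; push_cast; ring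
  rw [hk] at h2
  have h11 := sum_sub_ge m r
  have h12 : ((∑ i, (m i - r) : ℕ) : ℝ) + 1 ≤ S.card := by exact_mod_cast h1
  have hnR : (n : ℝ) = R * R := by rw [hn]; push_cast; ring
  have hcard : (R : ℝ) * (d - R * r) + 1 ≤ S.card := by
    rw [hnR] at h11
    nlinarith
  -- normal form of the conditions
  have h3 : ∀ x ∈ S, ∃ j : ℕ, -(1 + (1 - ε) / 3) * d - (3 * R - 9 + ε) * j ≤ (x : ℝ) ∧
      (x : ℝ) ≤ (2 - (1 - ε) / 3) * d - (3 * R + ε) * (j + r) := by
    intro x hx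
    obtain ⟨j1, j2, h4, h5, h6⟩ := h2 x hx
    have h4' : (j1 : ℝ) + r ≤ j2 := by exact_mod_cast h4
    refine ⟨j1, by linarith, ?_⟩
    have : (3 * R + ε) * (j1 + r) ≤ (3 * R + ε) * j2 :=
      mul_le_mul_of_nonneg_left h4' (by positivity)
    linarith
  have hSne : S.Nonempty := by
    rw [← Finset.card_pos]; omega
  have hmain : ∀ (T : Finset ℤ) (B : ℝ), T.Nonempty → (∀ x ∈ T, ∃ j : ℕ, (j : ℝ) ≤ B ∧
      -(1 + (1 - ε) / 3) * d - (3 * R - 9 + ε) * j ≤ (x : ℝ) ∧
      (x : ℝ) ≤ (2 - (1 - ε) / 3) * d - (3 * R + ε) * (j + r)) →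
      (T.card : ℝ) ≤ 3 * d - (3 * R + ε) * r + (3 * R - 9 + ε) * B + 1 := by
    intro T B hT hTB
    have h4 : ∀ x ∈ T, -(1 + (1 - ε) / 3) * d - (3 * R - 9 + ε) * B ≤ (x : ℝ) ∧
        (x : ℝ) ≤ (2 - (1 - ε) / 3) * d - (3 * R + ε) * r := by
      intro x hx
      obtain ⟨j, h5, h6, h7⟩ := hTB x hx
      constructor
      · have := mul_le_mul_of_nonneg_left h5 (show (0 : ℝ) ≤ 3 * R - 9 + ε by linarith)
        linarith
      · have : 0 ≤ (3 * (R : ℝ) + ε) * j := by positivity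
        linarith
    have h5 := card_le_of_mem h4 hT
    linarith
  have hr0 : (0 : ℝ) ≤ r := Nat.cast_nonneg r
  by_cases hcase : 1 ≤ r ∨ ¬ (3 ∣ d)
  · have h5 := hmain S (((d : ℝ) - R * r - 1) / 3) hSne (by
      intro x hx
      obtain ⟨j, h6, h7⟩ := h3 x hx
      refine ⟨j, ?_, h6, h7⟩
      have h8 : 9 * (j : ℝ) ≤ 3 * d - (3 * R + ε) * r := by nlinarith
      rw [le_div_iff₀ (by norm_num)]
      have h9 : (3 * j + R * r + 1 : ℕ) ≤ d := by
        rcases hcase with hr1 | h3d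
        · have hr1' : (1 : ℝ) ≤ r := by exact_mod_cast hr1
          have h10 : 3 * (j : ℝ) + R * r < d := by nlinarith
          have h11 : 3 * j + R * r < d := by exact_mod_cast h10
          omega
        · have h10 : 3 * (j : ℝ) + R * r ≤ d := by nlinarith
          have h11 : 3 * j + R * r ≤ d := by exact_mod_cast h10
          by_contra h12
          have h13 : 3 * j + R * r = d := by omega
          rcases Nat.eq_zero_or_pos r with h14 | h14
          · rw [h14, mul_zero, add_zero] at h13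
            exact h3d ⟨j, h13.symm⟩
          · have hr1' : (1 : ℝ) ≤ r := by exact_mod_cast h14
            have h15 : 3 * (j : ℝ) + R * r < d := by nlinarith
            have h16 : 3 * j + R * r < d := by exact_mod_cast h15
            omega
      have h10 : (3 * (j : ℝ) + R * r + 1) ≤ d := by exact_mod_cast h9
      linarith)
    have e : 3 * (d : ℝ) - (3 * R + ε) * r + (3 * R - 9 + ε) * ((d - R * r - 1) / 3) + 1 =
        R * (d - R * r) - R + 4 + ε * ((d - R * r - 1) / 3 - r) := by ring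
    rw [e] at h5
    have h6 : ε * ((d - R * r - 1) / 3 - r) ≤ ε * d := by
      apply mul_le_mul_of_nonneg_left _ hε0.le
      have : 0 ≤ (R : ℝ) * r := by positivity
      linarith
    linarith
  · push Not at hcase
    obtain ⟨hr, e, he⟩ := hcase
    have hr' : r = 0 := by omega
    subst hr'
    have hde : (d : ℝ) = 3 * e := by rw [he]; push_cast; ring
    obtain ⟨y, hy⟩ : ∃ y : ℤ, y = -((3 * R - 5) * e : ℤ) := ⟨_, rfl⟩
    have hyr : (y : ℝ) = -((3 * R - 5) * e) := by rw [hy]; push_cast; ring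
    simp only [Nat.cast_zero, mul_zero, sub_zero, add_zero] at h3 hmain hcard
    have h4 : ∀ x ∈ S.erase y, ∃ j : ℕ, (j : ℝ) ≤ (e : ℝ) - 1 ∧
        -(1 + (1 - ε) / 3) * d - (3 * R - 9 + ε) * j ≤ (x : ℝ) ∧
        (x : ℝ) ≤ (2 - (1 - ε) / 3) * d - (3 * R + ε) * j := by
      intro x hx
      rw [Finset.mem_erase] at hx
      obtain ⟨j, h5, h6⟩ := h3 x hx.2
      refine ⟨j, ?_, h5, h6⟩
      have h7 : (j : ℝ) ≤ e := by
        rw [hde] at h5 h6
        nlinarith
      have h8 : j ≤ e := by exact_mod_cast h7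
      have h9 : j ≠ e := by
        intro hje
        apply hx.1
        rw [hje, hde] at h5 h6
        have h10 : (x : ℝ) = y := by
          rw [hyr]
          apply le_antisymm
          · linarith
          · linarith
        exact_mod_cast h10
      have h10 : j + 1 ≤ e := by omega
      have h11 : (j : ℝ) + 1 ≤ e := by exact_mod_cast h10
      linarith
    have h5 : S.card ≤ (S.erase y).card + 1 := by
      have := Finset.pred_card_le_card_erase (s := S) (a := y)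
      omega
    have h5' : (S.card : ℝ) ≤ (S.erase y).card + 1 := by exact_mod_cast h5
    have he1 : 1 ≤ e := by omega
    have he1' : (1 : ℝ) ≤ e := by exact_mod_cast he1
    rcases (S.erase y).eq_empty_or_nonempty with h6 | h6
    · rw [h6] at h5'
      simp only [Finset.card_empty, Nat.cast_zero, zero_add] at h5'
      nlinarith
    · have h7 := hmain (S.erase y) ((e : ℝ) - 1) h6 (by simpa using h4)
      rw [hde] at h7 hcard hεd
      nlinarith

end Pool.Agent.Y206
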