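import Mathlib

set_option autoImplicit false

/-!
# Laurent polynomials at monomial-like places

`Gam` is the lexicographic square of the reals, `Om` the Hahn series with real exponents and
`HH` the Hahn series with exponents in `Gam`. A Laurent polynomial over `Om` evaluated at two
elements of `HH` with independent infinitesimal orders has the order of its least term.
-/

namespace Pool.Agent.Y206

open HahnSeries

/-- the value group -/
abbrev Gam := Lex (ℝ × ℝ)

/-- the coefficient field -/
abbrev Om := HahnSeries ℝ ℚ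

/-- the big field -/
abbrev HH := HahnSeries Gam ℚ

/-- a value -/
def pt (a b : ℝ) : Gam := toLex (a, b)

/-- real part of a value -/
def r1 (γ : Gam) : ℝ := (ofLex γ).1

/-- infinitesimal part of a value -/
def r2 (γ : Gam) : ℝ := (ofLex γ).2

@[simp] theorem r1_pt (a b : ℝ) : r1 (pt a b) = a := rfl
@[simp] theorem r2_pt (a b : ℝ) : r2 (pt a b) = b := rfl
@[simp] theorem r1_add (a b : Gam) : r1 (a + b) = r1 a + r1 b := rfl
@[simp] theorem r2_add (a b : Gam) : r2 (a + b) = r2 a + r2 b := rfl
@[simp] theorem r1_sub (a b : Gam) : r1 (a - b) = r1 a - r1 b := rfl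
@[simp] theorem r2_sub (a b : Gam) : r2 (a - b) = r2 a - r2 b := rfl
@[simp] theorem r1_neg (a : Gam) : r1 (-a) = - r1 a := rfl
@[simp] theorem r2_neg (a : Gam) : r2 (-a) = - r2 a := rfl
@[simp] theorem r1_zero : r1 0 = 0 := rfl
@[simp] theorem r2_zero : r2 0 = 0 := rfl

theorem gam_ext {a b : Gam} (h1 : r1 a = r1 b) (h2 : r2 a = r2 b) : a = b :=
  ofLex.injective (Prod.ext h1 h2)

@[simp] theorem r1_nsmul (n : ℕ) (a : Gam) : r1 (n • a) = n * r1 a := by
  have : r1 (n • a) = n • r1 a := rfl
  rw [this, nsmul_eq_mul]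

@[simp] theorem r2_nsmul (n : ℕ) (a : Gam) : r2 (n • a) = n * r2 a := by
  have : r2 (n • a) = n • r2 a := rfl
  rw [this, nsmul_eq_mul]

@[simp] theorem r1_zsmul (n : ℤ) (a : Gam) : r1 (n • a) = n * r1 a := by
  have : r1 (n • a) = n • r1 a := rfl
  rw [this, zsmul_eq_mul]

@[simp] theorem r2_zsmul (n : ℤ) (a : Gam) : r2 (n • a) = n * r2 a := by
  have : r2 (n • a) = n • r2 a := rfl
  rw [this, zsmul_eq_mul]

theorem r1_mono {a b : Gam} (h : a ≤ b) : r1 a ≤ r1 b := by
  rcases (Prod.Lex.le_iff.1 h) with h | h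
  · exact h.le
  · exact h.1.le

theorem lt_of_r1_lt {a b : Gam} (h : r1 a < r1 b) : a < b := by
  rw [Prod.Lex.lt_iff]
  exact Or.inl h

theorem r2_le_of {a b : Gam} (h : a ≤ b) (h1 : r1 a = r1 b) : r2 a ≤ r2 b := by
  rcases (Prod.Lex.le_iff.1 h) with h | h
  · exact absurd h1 (ne_of_lt h)
  · exact h.2

/-- all exponents of `q` have real part at least `r` -/
def Big (r : ℝ) (q : HH) : Prop := ∀ γ, q.coeff γ ≠ 0 → r ≤ r1 γ

theorem Big.mono {r r' : ℝ} {q : HH} (h : Big r q) (hr : r' ≤ r) : Big r' q :=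
  fun γ hγ => hr.trans (h γ hγ)

theorem Big.zero (r : ℝ) : Big r (0 : HH) := fun _ hγ => absurd rfl hγ

theorem Big.add {r : ℝ} {p q : HH} (hp : Big r p) (hq : Big r q) : Big r (p + q) := by
  intro γ hγ
  by_cases h1 : p.coeff γ = 0
  · refine hq γ fun h2 => hγ ?_
    rw [HahnSeries.coeff_add, h1, h2, add_zero]
  · exact hp γ h1

theorem Big.neg {r : ℝ} {p : HH} (hp : Big r p) : Big r (-p) := by
  intro γ hγ
  refine hp γ fun h => hγ ?_
  rw [HahnSeries.coeff_neg, h, neg_zero]

theorem Big.sub {r : ℝ} {p q : HH} (hp : Big r p) (hq : Big r q) : Big r (p - q) := by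
  rw [sub_eq_add_neg]
  exact hp.add hq.neg

theorem Big.mul {r s : ℝ} {p q : HH} (hp : Big r p) (hq : Big s q) : Big (r + s) (p * q) := by
  intro γ hγ
  have h : γ ∈ (p * q).support := hγ
  obtain ⟨a, ha, b, hb, rfl⟩ := Set.mem_add.1 (HahnSeries.support_mul_subset h)
  have h1 := hp a ha
  have h2 := hq b hb
  rw [r1_add]
  linarith

theorem Big.pow {r : ℝ} {p : HH} (hp : Big r p) (n : ℕ) : Big (n * r) (p ^ n) := by
  induction n with
  | zero =>
    intro γ hγ
    rw [pow_zero] at hγ
    rw [HahnSeries.coeff_one] at hγ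
    by_cases h : γ = 0
    · rw [h]; simp
    · rw [if_neg h] at hγ
      exact absurd rfl hγ
  | succ n ih =>
    rw [pow_succ]
    have := ih.mul hp
    refine this.mono (le_of_eq ?_)
    push_cast
    ring

theorem Big.single (γ : Gam) (c : ℚ) : Big (r1 γ) (HahnSeries.single γ c) := by
  intro δ hδ
  by_cases h : δ = γ
  · rw [h]
  · rw [HahnSeries.coeff_single_of_ne h] at hδ
    exact absurd rfl hδ

theorem Big.one : Big 0 (1 : HH) := by
  have := Big.single 0 1
  simpa using this

theorem Big.order (q : HH) : Big (r1 q.order) q := by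
  intro γ hγ
  exact r1_mono (HahnSeries.order_le_of_coeff_ne_zero hγ)

theorem Big.le_order {r : ℝ} {q : HH} (h : Big r q) (hq : q ≠ 0) : r ≤ r1 q.order :=
  h _ (fun h0 => hq (HahnSeries.coeff_order_eq_zero.1 h0))

/-- a small error does not change the order -/
theorem order_of_error {r : ℝ} {p q : HH} (hp : p ≠ 0) (hr : r1 p.order < r)
    (h : Big r (q - p)) : q ≠ 0 ∧ q.order = p.order := by
  have e : q = p + (q - p) := by ring
  by_cases h0 : q - p = 0
  · have : q = p := sub_eq_zero.1 h0
    rw [this]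
    exact ⟨hp, rfl⟩
  · have h1 : p.orderTop < (q - p).orderTop := by
      rw [← HahnSeries.order_eq_orderTop_of_ne_zero hp,
        ← HahnSeries.order_eq_orderTop_of_ne_zero h0, WithTop.coe_lt_coe]
      exact lt_of_r1_lt (hr.trans_le (h.le_order h0))
    have h2 : q.orderTop = p.orderTop := by
      conv_lhs => rw [e]
      exact HahnSeries.orderTop_add_eq_left h1
    have hq : q ≠ 0 := by
      intro hq
      rw [hq, HahnSeries.orderTop_zero] at h2
      exact hp (HahnSeries.orderTop_eq_top.1 h2.symm)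
    refine ⟨hq, ?_⟩
    rw [← HahnSeries.order_eq_orderTop_of_ne_zero hp,
      ← HahnSeries.order_eq_orderTop_of_ne_zero hq] at h2
    exact WithTop.coe_injective h2

/-- the coefficients as elements of the big field -/
noncomputable def io : Om →+* HH :=
  HahnSeries.embDomainRingHom
    ({ toFun := fun a => pt a 0
       map_zero' := rfl
       map_add' := fun a b => gam_ext (by simp) (by simp) } : ℝ →+ Gam)
    (fun a b h => congrArg r1 h)
    (fun a b => by
      constructor
      · intro h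
        exact r1_mono h
      · intro h
        change pt a 0 ≤ pt b 0
        rcases h.lt_or_eq with h | h
        · exact (lt_of_r1_lt (a := pt a 0) (b := pt b 0) h).le
        · rw [h])

theorem io_single (a : ℝ) (c : ℚ) : io (HahnSeries.single a c) = HahnSeries.single (pt a 0) c :=
  HahnSeries.embDomain_single

theorem io_order {c : Om} (hc : c ≠ 0) : (io c).order = pt c.order 0 := by
  have h0 : io c ≠ 0 := fun h => hc (io.injective (by rw [h, map_zero]))
  have h : (io c).orderTop = WithTop.map (fun a => pt a 0) c.orderTop :=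
    HahnSeries.orderTop_embDomain
  rw [← HahnSeries.order_eq_orderTop_of_ne_zero hc,
    ← HahnSeries.order_eq_orderTop_of_ne_zero h0] at h
  exact WithTop.coe_injective h

/-- Laurent polynomials in the first variable, polynomials in the second -/
abbrev LL := AddMonoidAlgebra Om (ℤ × ℕ)

/-- monomials -/
noncomputable def monHom (a b : HH) (ha : a ≠ 0) : Multiplicative (ℤ × ℕ) →* HH where
  toFun p := a ^ (p.toAdd.1) * b ^ (p.toAdd.2)
  map_one' := by simp
  map_mul' := by
    intro p q
    simp only [toAdd_mul, Prod.fst_add, Prod.snd_add]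
    rw [zpow_add₀ ha, _root_.pow_add]
    ring

/-- evaluation -/
noncomputable def ev (a b : HH) (ha : a ≠ 0) : LL →+* HH :=
  AddMonoidAlgebra.liftNCRingHom io (monHom a b ha) (fun _ _ => Commute.all _ _)

theorem ev_single (a b : HH) (ha : a ≠ 0) (p : ℤ × ℕ) (c : Om) :
    ev a b ha (AddMonoidAlgebra.single p c) = io c * (a ^ p.1 * b ^ p.2) := by
  unfold ev
  simp [AddMonoidAlgebra.liftNCRingHom, monHom]

theorem ev_apply (a b : HH) (ha : a ≠ 0) (P : LL) :
    ev a b ha P = ∑ p ∈ P.coeff.support, io (P.coeff p) * (a ^ p.1 * b ^ p.2) := by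
  conv_lhs => rw [← AddMonoidAlgebra.sum_coeff_single P]
  rw [Finsupp.sum, map_sum]
  exact Finset.sum_congr rfl fun p _ => ev_single a b ha p _

theorem order_zpow' {a : HH} (ha : a ≠ 0) (n : ℤ) : (a ^ n).order = n • a.order := by
  have hpow : ∀ k : ℕ, (a ^ k).order = k • a.order := fun k => HahnSeries.order_pow a k
  rcases n with k | k
  · rw [Int.ofNat_eq_natCast, zpow_natCast, hpow, natCast_zsmul]
  · rw [zpow_negSucc]
    have h0 : a ^ (k + 1) ≠ 0 := pow_ne_zero _ ha
    have h1 := HahnSeries.order_mul h0 (inv_ne_zero h0)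
    rw [mul_inv_cancel₀ h0, HahnSeries.order_one, hpow] at h1
    rw [negSucc_zsmul, eq_neg_iff_add_eq_zero, add_comm]
    exact h1.symm

theorem order_div' {a b : HH} (ha : a ≠ 0) (hb : b ≠ 0) : (a / b).order = a.order - b.order := by
  have h : (a / b * b).order = (a / b).order + b.order :=
    HahnSeries.order_mul (div_ne_zero ha hb) hb
  rw [div_mul_cancel₀ _ hb] at h
  rw [h]; abel

/-- the infinitesimal orders are independent -/
def Ind (a b : HH) : Prop :=
  ∀ p q : ℤ × ℕ, (p.1 : ℝ) * r2 a.order + p.2 * r2 b.order =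
    (q.1 : ℝ) * r2 a.order + q.2 * r2 b.order → p = q

/-- order of a term -/
noncomputable def tord (P : LL) (a b : HH) (p : ℤ × ℕ) : Gam :=
  pt (P.coeff p).order 0 + (p.1 • a.order + p.2 • b.order)

theorem term_order (P : LL) {a b : HH} (ha : a ≠ 0) (hb : b ≠ 0) {p : ℤ × ℕ}
    (hp : P.coeff p ≠ 0) :
    io (P.coeff p) * (a ^ p.1 * b ^ p.2) ≠ 0 ∧
      (io (P.coeff p) * (a ^ p.1 * b ^ p.2)).order = tord P a b p := by
  have h0 : io (P.coeff p) ≠ 0 := fun h => hp (io.injective (by rw [h, map_zero]))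
  have h1 : a ^ p.1 ≠ 0 := zpow_ne_zero _ ha
  have h2 : b ^ p.2 ≠ 0 := pow_ne_zero _ hb
  refine ⟨mul_ne_zero h0 (mul_ne_zero h1 h2), ?_⟩
  rw [HahnSeries.order_mul h0 (mul_ne_zero h1 h2), HahnSeries.order_mul h1 h2, io_order hp,
    order_zpow' ha, HahnSeries.order_pow]
  rfl

theorem lt_orderTop_sum {ι : Type*} (s : Finset ι) (f : ι → HH) (γ : Gam)
    (h : ∀ i ∈ s, (γ : WithTop Gam) < (f i).orderTop) :
    (γ : WithTop Gam) < (∑ i ∈ s, f i).orderTop := by
  classical
  induction s using Finset.induction_on with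
  | empty => simp
  | insert i s hi ih =>
    rw [Finset.sum_insert hi]
    refine lt_of_lt_of_le (lt_min (h i (Finset.mem_insert_self _ _))
      (ih fun j hj => h j (Finset.mem_insert_of_mem hj))) ?_
    exact HahnSeries.min_orderTop_le_orderTop_add

/-- **Gauss lemma**: the order of the value of a Laurent polynomial is the order of its least
term. -/
theorem gauss {P : LL} (hP : P ≠ 0) {a b : HH} (ha : a ≠ 0) (hb : b ≠ 0) (hI : Ind a b) :
    ev a b ha P ≠ 0 ∧ ∃ p, P.coeff p ≠ 0 ∧ (ev a b ha P).order = tord P a b p ∧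
      ∀ q, P.coeff q ≠ 0 → tord P a b p ≤ tord P a b q := by
  classical
  have hne : P.coeff.support.Nonempty := by
    rw [Finsupp.support_nonempty_iff]
    intro h
    exact hP (AddMonoidAlgebra.coeff_eq_zero.1 h)
  obtain ⟨p, hp, hmin⟩ := Finset.exists_min_image P.coeff.support (tord P a b) hne
  have hp0 : P.coeff p ≠ 0 := Finsupp.mem_support_iff.1 hp
  have hinj : ∀ q, q ≠ p → tord P a b q ≠ tord P a b p := by
    intro q hq h
    apply hq
    apply hI
    have := congrArg r2 h
    simpa only [tord, r2_add, r2_pt, r2_zsmul, r2_nsmul, zero_add] using this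
  have hsum : ev a b ha P = io (P.coeff p) * (a ^ p.1 * b ^ p.2) +
      ∑ q ∈ P.coeff.support.erase p, io (P.coeff q) * (a ^ q.1 * b ^ q.2) := by
    rw [ev_apply]
    exact (Finset.add_sum_erase _ (fun q => io (P.coeff q) * (a ^ q.1 * b ^ q.2)) hp).symm
  obtain ⟨h1, h2⟩ := term_order P ha hb hp0
  have h3 : ((tord P a b p : Gam) : WithTop Gam) <
      (∑ q ∈ P.coeff.support.erase p, io (P.coeff q) * (a ^ q.1 * b ^ q.2)).orderTop := by
    apply lt_orderTop_sum
    intro q hq
    rw [Finset.mem_erase] at hq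
    have hq0 : P.coeff q ≠ 0 := Finsupp.mem_support_iff.1 hq.2
    obtain ⟨h4, h5⟩ := term_order P ha hb hq0
    rw [← HahnSeries.order_eq_orderTop_of_ne_zero h4, h5, WithTop.coe_lt_coe]
    exact lt_of_le_of_ne (hmin q hq.2) (hinj q hq.1).symm
  have h6 : (io (P.coeff p) * (a ^ p.1 * b ^ p.2)).orderTop = (tord P a b p : Gam) := by
    rw [← HahnSeries.order_eq_orderTop_of_ne_zero h1, h2]
  have h7 : (ev a b ha P).orderTop = (tord P a b p : Gam) := by
    rw [hsum, HahnSeries.orderTop_add_eq_left (by rw [h6]; exact h3), h6]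
  have h8 : ev a b ha P ≠ 0 := by
    intro h
    rw [h, HahnSeries.orderTop_zero] at h7
    exact WithTop.top_ne_coe h7
  refine ⟨h8, p, hp0, ?_, fun q hq => hmin q (Finsupp.mem_support_iff.2 hq)⟩
  rw [← HahnSeries.order_eq_orderTop_of_ne_zero h8] at h7
  exact WithTop.coe_injective h7

end Pool.Agent.Y206
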