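import Pool.Agent.Y206.Chain

set_option autoImplicit false

/-!
# Leading forms

A form over `Om` becomes, in the coordinates adapted to the points, a Laurent polynomial whose
coefficients of least order have exponents in a triangle.
-/

namespace Pool.Agent.Y206

open HahnSeries

/-- the second coordinate as a Laurent polynomial -/
noncomputable def bz (β : ℝ) : LL :=
  AddMonoidAlgebra.single ((1 : ℤ), (0 : ℕ)) (HahnSeries.single β (1 : ℚ))

/-- the scaled reciprocal of the second coordinate -/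
noncomputable def bm (β : ℝ) : LL :=
  AddMonoidAlgebra.single ((-1 : ℤ), (0 : ℕ)) (HahnSeries.single (1 - β) (1 : ℚ))

/-- the first coordinate as a Laurent polynomial -/
noncomputable def bx (β : ℝ) (k : ℕ) : LL :=
  bm β * (1 + bz β ^ 3 + bm β ^ 3 * (1 + 3 * bz β ^ 3) -
    AddMonoidAlgebra.single (-(k : ℤ), (1 : ℕ)) (HahnSeries.single (3 + β) (1 : ℚ)))

/-- the Laurent polynomial of a form -/
noncomputable def GG (β : ℝ) (k : ℕ) (Q : MvPolynomial (Fin 3) Om) : LL :=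
  MvPolynomial.eval₂ AddMonoidAlgebra.singleZeroRingHom ![bx β k, 1, bz β] Q

theorem ev_GG (β : ℝ) (k : ℕ) (Q : MvPolynomial (Fin 3) Om) {a b : HH} (ha : a ≠ 0) :
    ev a b ha (GG β k Q) = evR Q (ev a b ha (bx β k)) (ev a b ha (bz β)) := by
  unfold GG evR
  rw [MvPolynomial.hom_eval₂]
  congr 1
  · ext c
    simp only [RingHom.comp_apply]
    change (ev a b ha (AddMonoidAlgebra.single (0 : ℤ × ℕ) c)).coeff _ = _
    rw [ev_single]
    simp
  · funext i
    fin_cases i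
    · rfl
    · exact map_one _
    · rfl

/-- monomials of infinitesimal order -/
noncomputable def mono (θ : ℝ) : HH := HahnSeries.single (pt 0 θ) 1

theorem mono_ne (θ : ℝ) : mono θ ≠ 0 := HahnSeries.single_ne_zero one_ne_zero

theorem mono_order (θ : ℝ) : (mono θ).order = pt 0 θ := HahnSeries.order_single one_ne_zero

theorem mono_inv (θ : ℝ) : (mono θ)⁻¹ = mono (-θ) := by
  have h : -pt 0 θ = pt 0 (-θ) := gam_ext (by simp) (by simp)
  unfold mono
  rw [HahnSeries.inv_single, inv_one, h]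

theorem mono_mul (θ θ' : ℝ) : mono θ * mono θ' = mono (θ + θ') := by
  have h : pt 0 θ + pt 0 θ' = pt 0 (θ + θ') := gam_ext (by simp) (by simp)
  unfold mono
  rw [HahnSeries.single_mul_single, one_mul, h]

theorem mono_pow (θ : ℝ) (n : ℕ) : mono θ ^ n = mono (n * θ) := by
  induction n with
  | zero =>
    simp only [pow_zero, Nat.cast_zero, zero_mul]
    rfl
  | succ n ih =>
    rw [pow_succ, ih, mono_mul]
    congr 1
    push_cast; ring

theorem single_mul_mono (a : ℝ) (c : ℚ) (θ : ℝ) :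
    HahnSeries.single (pt a 0) c * mono θ = HahnSeries.single (pt a θ) c := by
  have h : pt a 0 + pt 0 θ = pt a θ := gam_ext (by simp) (by simp)
  unfold mono
  rw [HahnSeries.single_mul_single, mul_one, h]

theorem ev_bz (β θ1 : ℝ) (b : HH) : ev (mono θ1) b (mono_ne _) (bz β) = zz β θ1 := by
  unfold bz
  rw [ev_single, io_single]
  simp only [zpow_one, pow_zero, mul_one]
  exact single_mul_mono _ _ _

theorem ev_bm (β θ1 : ℝ) (b : HH) : ev (mono θ1) b (mono_ne _) (bm β) = mm β θ1 := by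
  unfold bm
  rw [ev_single, io_single]
  simp only [zpow_neg, zpow_one, pow_zero, mul_one]
  rw [mono_inv]
  exact single_mul_mono _ _ _

theorem ev_bx (β θ1 θ2 : ℝ) (k : ℕ) :
    ev (mono θ1) (mono (θ2 + k * θ1)) (mono_ne _) (bx β k) =
      mm β θ1 * (1 + zz β θ1 ^ 3 + mm β θ1 ^ 3 * (1 + 3 * zz β θ1 ^ 3) -
        HahnSeries.single (pt (3 + β) θ2) 1) := by
  unfold bx
  simp only [map_mul, map_add, map_sub, map_pow, map_one, ev_bm, ev_bz, map_ofNat]
  congr 2
  rw [ev_single, io_single]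
  simp only [zpow_neg, zpow_natCast, pow_one]
  have h : -(k * θ1) + (θ2 + k * θ1) = θ2 := by ring
  rw [mono_pow, mono_inv, mono_mul, single_mul_mono, h]

theorem ind_mono {θ1 θ2 : ℝ} (h : IndT θ1 θ2) (k : ℕ) :
    Ind (mono θ1) (mono (θ2 + k * θ1)) := by
  intro p q hpq
  rw [mono_order, mono_order] at hpq
  simp only [r2_pt] at hpq
  have h1 : ((p.1 + k * (p.2 : ℤ) : ℤ) : ℝ) * θ1 + p.2 * θ2 =
      ((q.1 + k * (q.2 : ℤ) : ℤ) : ℝ) * θ1 + q.2 * θ2 := by
    push_cast
    linarith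
  obtain ⟨h2, h3⟩ := h _ _ _ _ h1
  refine Prod.ext ?_ h3
  rw [h3] at h2
  linarith

/-- a nonzero form does not vanish at independent elements -/
theorem evR_mono_ne {θ1 θ2 : ℝ} (hθ : IndT θ1 θ2) {Q : MvPolynomial (Fin 3) Om} {d : ℕ}
    (hQ : Q.IsHomogeneous d) (hQ0 : Q ≠ 0) : evR Q (mono θ2) (mono θ1) ≠ 0 := by
  classical
  obtain ⟨P, hP⟩ : ∃ P : LL, P = ∑ s ∈ Q.support,
    AddMonoidAlgebra.single ((s 2 : ℤ), s 0) (MvPolynomial.coeff s Q) := ⟨_, rfl⟩
  have hev : ev (mono θ1) (mono θ2) (mono_ne _) P = evR Q (mono θ2) (mono θ1) := by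
    rw [hP, map_sum]
    unfold evR
    rw [MvPolynomial.eval₂_eq']
    refine Finset.sum_congr rfl fun s _ => ?_
    rw [ev_single, Fin.prod_univ_three]
    simp only [Matrix.cons_val_zero, Matrix.cons_val_one, Matrix.cons_val, one_pow, mul_one,
      zpow_natCast]
    ring
  have hP0 : P ≠ 0 := by
    obtain ⟨s, hs⟩ := MvPolynomial.support_nonempty.2 hQ0
    intro h
    have h1 : P.coeff ((s 2 : ℤ), s 0) = MvPolynomial.coeff s Q := by
      rw [hP, AddMonoidAlgebra.coeff_sum, Finsupp.finsetSum_apply]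
      rw [Finset.sum_eq_single s]
      · simp
      · intro t ht hts
        rw [AddMonoidAlgebra.coeff_single, Finsupp.single_apply, if_neg]
        intro h2
        apply hts
        have h3 : (t 2 : ℤ) = s 2 := congrArg Prod.fst h2
        have h4 : t 0 = s 0 := congrArg Prod.snd h2
        have h3' : t 2 = s 2 := by exact_mod_cast h3
        have e1 := hQ (MvPolynomial.mem_support_iff.1 ht)
        have e2 := hQ (MvPolynomial.mem_support_iff.1 hs)
        rw [Finsupp.weight_apply, Finsupp.sum_fintype _ _ (by simp), Fin.sum_univ_three] at e1 e2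
        simp only [Pi.one_apply, smul_eq_mul, mul_one] at e1 e2
        ext i
        fin_cases i
        · exact h4
        · change t 1 = s 1
          omega
        · exact h3'
      · intro h2
        exact absurd hs h2
    rw [h] at h1
    exact (MvPolynomial.mem_support_iff.1 hs) h1.symm
  have hI : Ind (mono θ1) (mono θ2) := by
    have := ind_mono hθ 0
    simpa using this
  rw [← hev]
  exact (gauss hP0 (mono_ne _) (mono_ne _) hI).1

theorem io_single_ne (a : ℝ) : io (HahnSeries.single a (1 : ℚ)) ≠ 0 := by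
  rw [io_single]
  exact HahnSeries.single_ne_zero one_ne_zero

/-- the Laurent polynomial of a nonzero form is nonzero -/
theorem GG_ne {θ1 θ2 : ℝ} (hθ : IndT θ1 θ2) (β : ℝ) (k : ℕ) {Q : MvPolynomial (Fin 3) Om} {d : ℕ}
    (hQ : Q.IsHomogeneous d) (hQ0 : Q ≠ 0) : GG β k Q ≠ 0 := by
  have h := evR_mono_ne hθ hQ hQ0
  -- an evaluation sending `bz` to `mono θ1` and `bx` to `mono θ2`
  obtain ⟨s, hs⟩ : ∃ s, s = io (HahnSeries.single β (1 : ℚ)) := ⟨_, rfl⟩
  obtain ⟨m, hm⟩ : ∃ m, m = io (HahnSeries.single (1 - β) (1 : ℚ)) := ⟨_, rfl⟩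
  obtain ⟨w, hw⟩ : ∃ w, w = io (HahnSeries.single (3 + β) (1 : ℚ)) := ⟨_, rfl⟩
  have hs0 : s ≠ 0 := by rw [hs]; exact io_single_ne _
  have hm0 : m ≠ 0 := by rw [hm]; exact io_single_ne _
  have hw0 : w ≠ 0 := by rw [hw]; exact io_single_ne _
  have h1 := mono_ne θ1
  obtain ⟨a, ha⟩ : ∃ a, a = mono θ1 / s := ⟨_, rfl⟩
  have ha0 : a ≠ 0 := by rw [ha]; exact div_ne_zero h1 hs0
  obtain ⟨M, hM⟩ : ∃ M, M = m * a⁻¹ := ⟨_, rfl⟩
  have hM0 : M ≠ 0 := by rw [hM]; exact mul_ne_zero hm0 (inv_ne_zero ha0)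
  obtain ⟨ρ, hρ⟩ : ∃ ρ, ρ = 1 + (s * a) ^ 3 + M ^ 3 * (1 + 3 * (s * a) ^ 3) := ⟨_, rfl⟩
  obtain ⟨b, hb⟩ : ∃ b, b = (ρ - mono θ2 / M) * (a ^ k) / w := ⟨_, rfl⟩
  have e1 : ev a b ha0 (bz β) = s * a := by
    unfold bz
    rw [ev_single, ← hs]
    simp
  have e2 : ev a b ha0 (bm β) = M := by
    unfold bm
    rw [ev_single, ← hm, hM]
    simp
  have e3 : ev a b ha0 (bx β k) = mono θ2 := by
    unfold bx
    simp only [map_mul, map_add, map_sub, map_pow, map_one, e1, e2, map_ofNat]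
    rw [ev_single, ← hw, ← hρ]
    simp only [zpow_neg, zpow_natCast, pow_one]
    have hak : a ^ k ≠ 0 := pow_ne_zero _ ha0
    have e4 : w * ((a ^ k)⁻¹ * b) = ρ - mono θ2 / M := by
      rw [hb]
      field_simp
    rw [e4]
    field_simp
    ring
  have e5 : s * a = mono θ1 := by
    rw [ha]
    field_simp
  intro h0
  have h2 := ev_GG β k Q (b := b) ha0
  rw [h0, map_zero, e3, e1, e5] at h2
  exact h h2.symm

/-- the coefficients of least order -/
def IsLeast' (G : LL) (p : ℤ × ℕ) : Prop :=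
  G.coeff p ≠ 0 ∧ ∀ q, G.coeff q ≠ 0 → (G.coeff p).order ≤ (G.coeff q).order

theorem least_dir {β : ℝ} (hβ0 : 0 < β) (hβ : β < 3 / 7) {θ1 θ2 : ℝ} (hθ : IndT θ1 θ2) (k : ℕ)
    {Q : MvPolynomial (Fin 3) Om} {d : ℕ} (hQ : Q.IsHomogeneous d) (hQ0 : Q ≠ 0) :
    ∃ p0 : ℤ × ℕ, -(1 + β) * (d - 3 * (p0.2 : ℝ)) ≤ (p0.1 : ℝ) + k * p0.2 ∧
      (p0.1 : ℝ) + k * p0.2 ≤ (2 - β) * (d - 3 * (p0.2 : ℝ)) ∧
      ∀ p, IsLeast' (GG β k Q) p →
        ((p0.1 : ℝ) + k * p0.2) * θ1 + p0.2 * θ2 ≤ ((p.1 : ℝ) + k * p.2) * θ1 + p.2 * θ2 := by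
  have hG := GG_ne hθ β k hQ hQ0
  obtain ⟨h1, p0, hp0, h2, h3⟩ := gauss hG (mono_ne θ1) (mono_ne (θ2 + k * θ1)) (ind_mono hθ k)
  have h4 := ev_GG β k Q (b := mono (θ2 + k * θ1)) (mono_ne θ1)
  rw [ev_bx, ev_bz] at h4
  rw [h4] at h1 h2
  have hpl0 := place0 (θ1 := θ1) (θ2 := θ2) hβ0 hβ
  have hpl1 : BPlace β θ1 θ2 (3 + β - 3) (mm β θ1 * (1 - HahnSeries.single (pt β θ2) 1)) := by
    have := place1 (θ1 := θ1) (θ2 := θ2) hβ0 (by linarith)
    have e : 3 + β - 3 = β := by ring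
    rw [e]; exact this
  have h5 : r2 (evR Q (mm β θ1 * (1 + zz β θ1 ^ 3 + mm β θ1 ^ 3 * (1 + 3 * zz β θ1 ^ 3) -
      HahnSeries.single (pt (3 + β) θ2) 1)) (zz β θ1)).order =
      ((p0.1 + k * (p0.2 : ℤ) : ℤ) : ℝ) * θ1 + p0.2 * θ2 := by
    rw [h2]
    simp only [tord, r2_add, r2_pt, r2_zsmul, r2_nsmul, mono_order, zero_add]
    push_cast
    ring
  obtain ⟨h6, h7⟩ := window hβ0 (by linarith) hθ hpl0 hpl1 hQ h1 _ _ h5
  push_cast at h6 h7
  refine ⟨p0, h6, h7, fun p hp => ?_⟩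
  have h8 := h3 p hp.1
  have h9 : r1 (tord (GG β k Q) (mono θ1) (mono (θ2 + k * θ1)) p0) =
      r1 (tord (GG β k Q) (mono θ1) (mono (θ2 + k * θ1)) p) := by
    apply le_antisymm (r1_mono h8)
    simp only [tord, r1_add, r1_pt, r1_zsmul, r1_nsmul, mono_order, mul_zero, add_zero]
    exact hp.2 p0 hp0
  have h10 := r2_le_of h8 h9
  simp only [tord, r2_add, r2_pt, r2_zsmul, r2_nsmul, mono_order, zero_add] at h10
  linarith

theorem irr_ind {x : ℝ} (hx : Irrational x) (h h' : ℤ) (j j' : ℕ)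
    (e : (h : ℝ) + j * x = h' + j' * x) : h = h' ∧ j = j' := by
  have hj : j = j' := by
    by_contra hne
    have hne' : ((j : ℝ) - j') ≠ 0 := by
      rw [sub_ne_zero]; exact_mod_cast hne
    apply hx
    refine ⟨((h' : ℚ) - h) / ((j : ℚ) - j'), ?_⟩
    push_cast
    rw [div_eq_iff hne']
    linarith
  refine ⟨?_, hj⟩
  rw [hj] at e
  have : (h : ℝ) = h' := by linarith
  exact_mod_cast this

/-- **the leading exponents lie in the triangle** -/
theorem least_window {β : ℝ} (hβ0 : 0 < β) (hβ : β < 3 / 7) (hirr : Irrational β) (k : ℕ)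
    {Q : MvPolynomial (Fin 3) Om} {d : ℕ} (hQ : Q.IsHomogeneous d) (hQ0 : Q ≠ 0) {p : ℤ × ℕ}
    (hp : IsLeast' (GG β k Q) p) :
    -(1 + β) * (d - 3 * (p.2 : ℝ)) ≤ (p.1 : ℝ) + k * p.2 ∧
      (p.1 : ℝ) + k * p.2 ≤ (2 - β) * (d - 3 * (p.2 : ℝ)) := by
  constructor
  · have hθ : IndT 1 (-(3 * (1 + β))) := by
      intro h h' j j' e
      have h1 : Irrational (-(3 * (1 + β))) := by
        have h2 : Irrational (1 + β) := by
          have := hirr.natCast_add 1
          simpa using this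
        have h3 : Irrational (3 * (1 + β)) := by
          have := h2.natCast_mul (m := 3) (by norm_num)
          simpa using this
        exact h3.neg
      exact irr_ind h1 h h' j j' (by linarith)
    obtain ⟨p0, h1, -, h3⟩ := least_dir hβ0 hβ hθ k hQ hQ0
    have h4 := h3 p hp
    nlinarith
  · have hθ : IndT (-1) (-(3 * (2 - β))) := by
      intro h h' j j' e
      have h1 : Irrational (3 * (2 - β)) := by
        have h2 : Irrational (2 - β) := by
          have := hirr.natCast_sub 2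
          simpa using this
        have := h2.natCast_mul (m := 3) (by norm_num)
        simpa using this
      exact irr_ind h1 h h' j j' (by linarith)
    obtain ⟨p0, -, h2, h3⟩ := least_dir hβ0 hβ hθ k hQ hQ0
    have h4 := h3 p hp
    nlinarith

end Pool.Agent.Y206
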