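import Pool.Agent.Y206.Gauss

set_option autoImplicit false

/-!
# Patches

The small root `x` of `x ^ 3 - x * z / mu + 1 + z ^ 3 = g` is approximated by Laurent polynomials in
`z` and `g`; this compares the values of one polynomial at two places.
-/

namespace Pool.Agent.Y206

open HahnSeries

/-- the parameter of the pencil -/
noncomputable def mu : Om := HahnSeries.single (1 : ℝ) (1 : ℚ)

/-- value of a polynomial at `(x : 1 : z)` -/
noncomputable def evR (R : MvPolynomial (Fin 3) Om) (x z : HH) : HH :=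
  MvPolynomial.eval₂ io ![x, 1, z] R

/-- Laurent polynomials approximating the small root -/
noncomputable def XN : ℕ → LL
  | 0 => 0
  | N + 1 => (1 + (AddMonoidAlgebra.single ((1 : ℤ), (0 : ℕ)) (1 : Om)) ^ 3
      - AddMonoidAlgebra.single ((0 : ℤ), (1 : ℕ)) (1 : Om) + XN N ^ 3) *
      AddMonoidAlgebra.single ((-1 : ℤ), (0 : ℕ)) mu

/-- approximations of the small root -/
noncomputable def xn (z g : HH) : ℕ → HH
  | 0 => 0
  | N + 1 => (1 + z ^ 3 - g + xn z g N ^ 3) * (io mu * z⁻¹)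

theorem ev_XN {z g : HH} (hz : z ≠ 0) (N : ℕ) : ev z g hz (XN N) = xn z g N := by
  induction N with
  | zero => simp [XN, xn]
  | succ N ih =>
    simp only [XN, xn, map_mul, map_add, map_sub, map_pow, map_one, ev_single, ih]
    simp

/-- a place -/
structure IsPlace (x z g : HH) : Prop where
  hz : z ≠ 0
  hg : g ≠ 0
  rel : x = (1 + z ^ 3 - g + x ^ 3) * (io mu * z⁻¹)
  small : ∃ ξ, Big ξ x ∧ 0 < 2 * ξ + 1 - r1 z.order
  ind : Ind z g

theorem io_mu : io mu = HahnSeries.single (pt 1 0) 1 := io_single _ _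

theorem big_m {z : HH} (hz : z ≠ 0) : Big (1 - r1 z.order) (io mu * z⁻¹) := by
  have h1 : Big 1 (io mu) := by
    rw [io_mu]; exact Big.single (pt 1 0) 1
  have h2 : Big (- r1 z.order) z⁻¹ := by
    have h := Big.order z⁻¹
    have h3 : (z⁻¹).order = - z.order := by
      have := order_zpow' hz (-1)
      rw [zpow_neg_one, neg_one_zsmul] at this
      exact this
    rw [h3, r1_neg] at h
    exact h
  exact (h1.mul h2).mono (le_of_eq (by ring))

theorem contraction {x z g : HH} (h : IsPlace x z g) {ξ : ℝ} (hξ : Big ξ x)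
    (hpos : 0 < 2 * ξ + 1 - r1 z.order) (N : ℕ) :
    Big (ξ + N * (2 * ξ + 1 - r1 z.order)) (x - xn z g N) := by
  induction N with
  | zero => simpa [xn] using hξ
  | succ N ih =>
    have hN : 0 ≤ (N : ℝ) * (2 * ξ + 1 - r1 z.order) := by positivity
    have h1 : Big ξ (xn z g N) := by
      have e : xn z g N = x - (x - xn z g N) := by ring
      rw [e]
      exact hξ.sub (ih.mono (by linarith))
    have e : x - xn z g (N + 1) =
        (x - xn z g N) * (x * x + x * xn z g N + xn z g N * xn z g N) * (io mu * z⁻¹) := by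
      conv_lhs => rw [h.rel]
      simp only [xn]
      ring
    rw [e]
    have h2 : Big (ξ + ξ) (x * x + x * xn z g N + xn z g N * xn z g N) :=
      ((hξ.mul hξ).add (hξ.mul h1)).add (h1.mul h1)
    refine ((ih.mul h2).mul (big_m h.hz)).mono (le_of_eq ?_)
    push_cast
    ring

theorem evR_C (c : Om) (x z : HH) : evR (MvPolynomial.C c) x z = io c := by
  simp [evR]

theorem evR_add (R S : MvPolynomial (Fin 3) Om) (x z : HH) :
    evR (R + S) x z = evR R x z + evR S x z := by
  simp [evR, MvPolynomial.eval₂_add]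

theorem evR_mul_X (R : MvPolynomial (Fin 3) Om) (i : Fin 3) (x z : HH) :
    evR (R * MvPolynomial.X i) x z = evR R x z * (![x, 1, z] : Fin 3 → HH) i := by
  simp [evR, MvPolynomial.eval₂_mul]

theorem evR_diff (R : MvPolynomial (Fin 3) Om) (z : HH) (ξ : ℝ) :
    ∃ C, (∀ x, Big ξ x → Big C (evR R x z)) ∧ ∀ δ, 0 ≤ δ → ∀ x y, Big ξ x →
      Big (ξ + δ) (x - y) → Big (C + δ) (evR R x z - evR R y z) := by
  induction R using MvPolynomial.induction_on with
  | C c =>
    refine ⟨r1 (io c).order, fun x _ => ?_, fun δ hδ x y _ _ => ?_⟩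
    · rw [evR_C]; exact Big.order _
    · rw [evR_C, evR_C, sub_self]; exact Big.zero _
  | add R S hR hS =>
    obtain ⟨C, h1, h2⟩ := hR
    obtain ⟨D, h3, h4⟩ := hS
    refine ⟨min C D, fun x hx => ?_, fun δ hδ x y hx hxy => ?_⟩
    · rw [evR_add]
      exact ((h1 x hx).mono (min_le_left _ _)).add ((h3 x hx).mono (min_le_right _ _))
    · rw [evR_add, evR_add]
      have e : evR R x z + evR S x z - (evR R y z + evR S y z) =
        (evR R x z - evR R y z) + (evR S x z - evR S y z) := by ring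
      rw [e]
      refine ((h2 δ hδ x y hx hxy).mono ?_).add ((h4 δ hδ x y hx hxy).mono ?_)
      · linarith [min_le_left C D]
      · linarith [min_le_right C D]
  | mul_X R i hR =>
    obtain ⟨C, h1, h2⟩ := hR
    obtain ⟨B, hB⟩ : ∃ B : Fin 3 → ℝ, B = ![ξ, 0, r1 z.order] := ⟨_, rfl⟩
    have hb : ∀ y, Big ξ y → Big (B i) ((![y, 1, z] : Fin 3 → HH) i) := by
      intro y hy
      rw [hB]
      fin_cases i
      · exact hy
      · exact Big.one
      · exact Big.order z
    have hd : ∀ δ x y, Big (ξ + δ) (x - y) →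
        Big (B i + δ) ((![x, 1, z] : Fin 3 → HH) i - (![y, 1, z] : Fin 3 → HH) i) := by
      intro δ x y hxy
      rw [hB]
      fin_cases i
      · exact hxy
      · change Big _ ((1 : HH) - 1)
        rw [sub_self]; exact Big.zero _
      · change Big _ (z - z)
        rw [sub_self]; exact Big.zero _
    refine ⟨C + B i, fun x hx => ?_, fun δ hδ x y hx hxy => ?_⟩
    · rw [evR_mul_X]
      exact (h1 x hx).mul (hb x hx)
    · have hy : Big ξ y := by
        have e : y = x - (x - y) := by ring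
        rw [e]
        exact hx.sub (hxy.mono (by linarith))
      rw [evR_mul_X, evR_mul_X]
      have e : evR R x z * (![x, 1, z] : Fin 3 → HH) i - evR R y z * (![y, 1, z] : Fin 3 → HH) i =
        evR R x z * ((![x, 1, z] : Fin 3 → HH) i - (![y, 1, z] : Fin 3 → HH) i) +
        (evR R x z - evR R y z) * (![y, 1, z] : Fin 3 → HH) i := by ring
      rw [e]
      refine (((h1 x hx).mul (hd δ x y hxy)).mono ?_).add
        (((h2 δ hδ x y hx hxy).mul (hb y hy)).mono ?_)
      · linarith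
      · linarith

/-- the approximating Laurent polynomial of a polynomial -/
noncomputable def PN (R : MvPolynomial (Fin 3) Om) (N : ℕ) : LL :=
  MvPolynomial.eval₂ AddMonoidAlgebra.singleZeroRingHom
    ![XN N, 1, AddMonoidAlgebra.single ((1 : ℤ), (0 : ℕ)) (1 : Om)] R

theorem ev_PN (R : MvPolynomial (Fin 3) Om) (N : ℕ) {z g : HH} (hz : z ≠ 0) :
    ev z g hz (PN R N) = evR R (xn z g N) z := by
  unfold PN evR
  rw [MvPolynomial.hom_eval₂]
  congr 1
  · ext c
    simp only [RingHom.comp_apply]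
    change (ev z g hz (AddMonoidAlgebra.single (0 : ℤ × ℕ) c)).coeff _ = _
    rw [ev_single]
    simp
  · funext i
    fin_cases i
    · exact ev_XN hz N
    · exact map_one _
    · change ev z g hz (AddMonoidAlgebra.single ((1 : ℤ), (0 : ℕ)) (1 : Om)) = z
      rw [ev_single]
      simp

theorem approx {x z g : HH} (h : IsPlace x z g) (R : MvPolynomial (Fin 3) Om) (U : ℝ) :
    ∃ N0 : ℕ, ∀ N, N0 ≤ N → ∃ r, U < r ∧ Big r (evR R x z - ev z g h.hz (PN R N)) := by
  obtain ⟨ξ, hξ, hpos⟩ := h.small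
  obtain ⟨C, -, hC⟩ := evR_diff R z ξ
  obtain ⟨N0, hN0⟩ := exists_nat_gt ((U - C) / (2 * ξ + 1 - r1 z.order))
  refine ⟨N0, fun N hN => ⟨C + N * (2 * ξ + 1 - r1 z.order), ?_, ?_⟩⟩
  · rw [div_lt_iff₀ hpos] at hN0
    have : (N0 : ℝ) * (2 * ξ + 1 - r1 z.order) ≤ N * (2 * ξ + 1 - r1 z.order) := by
      have : (N0 : ℝ) ≤ N := by exact_mod_cast hN
      exact mul_le_mul_of_nonneg_right this hpos.le
    linarith
  · rw [ev_PN]
    exact hC _ (by positivity) _ _ hξ (contraction h hξ hpos N)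

/-- **Comparison of two places** -/
theorem compare {xA zA gA xB zB gB : HH} (hA : IsPlace xA zA gA) (hB : IsPlace xB zB gB)
    (R : MvPolynomial (Fin 3) Om) (hR : evR R xA zA ≠ 0) :
    evR R xB zB ≠ 0 ∧ ∃ (h : ℤ) (j : ℕ),
      r2 (evR R xA zA).order = h * r2 zA.order + j * r2 gA.order ∧
      r1 (evR R xB zB).order ≤ r1 (evR R xA zA).order + h * (r1 zB.order - r1 zA.order) +
        j * (r1 gB.order - r1 gA.order) := by
  obtain ⟨NA, hNA⟩ := approx hA R (r1 (evR R xA zA).order)
  -- at the place `A`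
  have key : ∀ N, NA ≤ N → PN R N ≠ 0 ∧ ∃ p, (PN R N).coeff p ≠ 0 ∧
      (evR R xA zA).order = tord (PN R N) zA gA p := by
    intro N hN
    obtain ⟨r, hr, hbig⟩ := hNA N hN
    have hbig' : Big r (ev zA gA hA.hz (PN R N) - evR R xA zA) := by
      have e : ev zA gA hA.hz (PN R N) - evR R xA zA =
        -(evR R xA zA - ev zA gA hA.hz (PN R N)) := by ring
      rw [e]; exact hbig.neg
    obtain ⟨h1, h2⟩ := order_of_error hR hr hbig'
    have hP : PN R N ≠ 0 := by
      intro h
      rw [h, map_zero] at h1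
      exact h1 rfl
    obtain ⟨-, p, hp, hp1, -⟩ := gauss hP hA.hz hA.hg hA.ind
    exact ⟨hP, p, hp, by rw [← h2, hp1]⟩
  obtain ⟨-, p, -, hp⟩ := key NA le_rfl
  have hp2 : r2 (evR R xA zA).order = p.1 * r2 zA.order + p.2 * r2 gA.order := by
    rw [hp]
    simp only [tord, r2_add, r2_pt, r2_zsmul, r2_nsmul, zero_add]
  obtain ⟨U, hU⟩ : ∃ U, U = r1 (evR R xA zA).order + p.1 * (r1 zB.order - r1 zA.order) +
        p.2 * (r1 gB.order - r1 gA.order) := ⟨_, rfl⟩
  obtain ⟨NB, hNB⟩ := approx hB R U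
  obtain ⟨hP, q, hq, hq1⟩ := key (max NA NB) (le_max_left _ _)
  have hqp : q = p := by
    apply hA.ind
    have h3 : r2 (evR R xA zA).order = q.1 * r2 zA.order + q.2 * r2 gA.order := by
      rw [hq1]
      simp only [tord, r2_add, r2_pt, r2_zsmul, r2_nsmul, zero_add]
    rw [← h3, hp2]
  rw [hqp] at hq hq1
  have hFA : r1 (evR R xA zA).order = ((PN R (max NA NB)).coeff p).order +
      (p.1 * r1 zA.order + p.2 * r1 gA.order) := by
    conv_lhs => rw [hq1]
    simp only [tord, r1_add, r1_pt, r1_zsmul, r1_nsmul]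
  obtain ⟨h5, s, hs, hs1, hs2⟩ := gauss hP hB.hz hB.hg hB.ind
  have h6 : r1 (ev zB gB hB.hz (PN R (max NA NB))).order ≤ U := by
    rw [hs1]
    refine (r1_mono (hs2 p hq)).trans ?_
    simp only [tord, r1_add, r1_pt, r1_zsmul, r1_nsmul]
    rw [hU, hFA]
    linarith
  obtain ⟨r, hr, hbig⟩ := hNB (max NA NB) (le_max_right _ _)
  obtain ⟨h7, h8⟩ := order_of_error h5 (h6.trans_lt hr) hbig
  refine ⟨h7, p.1, p.2, hp2, ?_⟩
  rw [h8, ← hU]
  exact h6

end Pool.Agent.Y206
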